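import Mathlib

/-!
# The coefficients of the powers of a polynomial with nonnegative coefficients
-/

set_option autoImplicit false

open Polynomial

namespace Pool.Agent.K3h15.LD

variable {Q : ℚ[X]}

lemma coeff_nonneg (hQ : ∀ i, 0 ≤ Q.coeff i) (N m : ℕ) : 0 ≤ (Q ^ N).coeff m := by
  induction N generalizing m with
  | zero =>
    rw [pow_zero, coeff_one]
    split_ifs <;> norm_num
  | succ N ih =>
    rw [pow_succ, coeff_mul]
    exact Finset.sum_nonneg fun x _ => mul_nonneg (ih _) (hQ _)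

lemma coeff_X_der (p : ℚ[X]) (l : ℕ) : (X * derivative p).coeff l = (l : ℚ) * p.coeff l := by
  cases l with
  | zero => simp
  | succ l =>
    rw [coeff_X_mul, coeff_derivative]
    push_cast
    ring

lemma up (hQ : ∀ i, 0 ≤ Q.coeff i) (N m k : ℕ) :
    ((N : ℚ) + 1) * (Q ^ N).coeff m * (((k : ℚ) + 1) * Q.coeff (k + 1)) ≤
      ((m : ℚ) + k + 1) * (Q ^ (N + 1)).coeff (m + k + 1) := by
  have h1 : (derivative (Q ^ (N + 1))).coeff (m + k)
      = (Q ^ (N + 1)).coeff (m + k + 1) * (((m + k : ℕ) : ℚ) + 1) := by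
    rw [coeff_derivative]
  have h2 : derivative (Q ^ (N + 1)) = C ((N : ℚ) + 1) * (Q ^ N * derivative Q) := by
    rw [derivative_pow_succ]
    push_cast
    ring
  rw [h2, coeff_C_mul, coeff_mul] at h1
  have h3 : (Q ^ N).coeff m * (derivative Q).coeff k ≤
      ∑ x ∈ Finset.HasAntidiagonal.antidiagonal (m + k), (Q ^ N).coeff x.1 * (derivative Q).coeff x.2 := by
    have hmem : ((m, k) : ℕ × ℕ) ∈ Finset.HasAntidiagonal.antidiagonal (m + k) := by
      rw [Finset.HasAntidiagonal.mem_antidiagonal]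
    refine Finset.single_le_sum (f := fun x : ℕ × ℕ => (Q ^ N).coeff x.1 * (derivative Q).coeff x.2)
      (fun x _ => ?_) hmem
    refine mul_nonneg (coeff_nonneg hQ _ _) ?_
    rw [coeff_derivative]
    exact mul_nonneg (hQ _) (by positivity)
  have h4 : (derivative Q).coeff k = Q.coeff (k + 1) * ((k : ℚ) + 1) := coeff_derivative _ _
  have hN : (0 : ℚ) ≤ (N : ℚ) + 1 := by positivity
  calc ((N : ℚ) + 1) * (Q ^ N).coeff m * (((k : ℚ) + 1) * Q.coeff (k + 1))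
      = ((N : ℚ) + 1) * ((Q ^ N).coeff m * (derivative Q).coeff k) := by rw [h4]; ring
    _ ≤ _ := mul_le_mul_of_nonneg_left h3 hN
    _ = ((m : ℚ) + k + 1) * (Q ^ (N + 1)).coeff (m + k + 1) := by
        rw [h1]; push_cast; ring

lemma down (hQ : ∀ i, 0 ≤ Q.coeff i) (h0 : Q.coeff 0 = 1) (N m : ℕ) :
    ((N : ℚ) + 1 - m) * (Q ^ (N + 1)).coeff m ≤ ((N : ℚ) + 1) * (Q ^ N).coeff m := by
  have h2 : derivative (Q ^ (N + 1)) = C ((N : ℚ) + 1) * (Q ^ N * derivative Q) := by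
    rw [derivative_pow_succ]
    push_cast
    ring
  have h1 : C ((N : ℚ) + 1) * Q ^ (N + 1) - X * derivative (Q ^ (N + 1))
      = C ((N : ℚ) + 1) * (Q ^ N * (Q - X * derivative Q)) := by
    rw [h2, pow_succ]
    ring
  have h3 := congrArg (fun p : ℚ[X] => p.coeff m) h1
  simp only [coeff_sub, coeff_C_mul, coeff_X_der] at h3
  rw [coeff_mul] at h3
  have h4 : ∑ x ∈ Finset.HasAntidiagonal.antidiagonal m, (Q ^ N).coeff x.1 * (Q - X * derivative Q).coeff x.2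
      ≤ (Q ^ N).coeff m := by
    have hle : ∀ x ∈ Finset.HasAntidiagonal.antidiagonal m,
        (Q ^ N).coeff x.1 * (Q - X * derivative Q).coeff x.2
          ≤ if x = (m, 0) then (Q ^ N).coeff m else 0 := by
      intro x hx
      rw [Finset.HasAntidiagonal.mem_antidiagonal] at hx
      have e : (Q - X * derivative Q).coeff x.2 = (1 - (x.2 : ℚ)) * Q.coeff x.2 := by
        rw [coeff_sub, coeff_X_der]; ring
      rw [e]
      split_ifs with h
      · rw [h]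
        simp [h0]
      · have hx2 : 1 ≤ x.2 := by
          by_contra hc
          apply h
          have : x.2 = 0 := by omega
          ext
          · simp; omega
          · simp [this]
        have hx3 : (1 : ℚ) ≤ (x.2 : ℚ) := by exact_mod_cast hx2
        have hn : (1 - (x.2 : ℚ)) * Q.coeff x.2 ≤ 0 :=
          mul_nonpos_of_nonpos_of_nonneg (by linarith) (hQ _)
        exact mul_nonpos_of_nonneg_of_nonpos (coeff_nonneg hQ _ _) hn
    refine (Finset.sum_le_sum hle).trans ?_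
    rw [Finset.sum_ite_eq']
    split_ifs with h
    · exact le_rfl
    · exact coeff_nonneg hQ _ _
  have hN : (0 : ℚ) ≤ (N : ℚ) + 1 := by positivity
  have h5 := mul_le_mul_of_nonneg_left h4 hN
  calc ((N : ℚ) + 1 - m) * (Q ^ (N + 1)).coeff m
      = ((N : ℚ) + 1) * (Q ^ (N + 1)).coeff m - (m : ℚ) * (Q ^ (N + 1)).coeff m := by ring
    _ = _ := h3
    _ ≤ _ := h5

/-- The growth of the coefficients. -/
lemma step (hQ : ∀ i, 0 ≤ Q.coeff i) (h0 : Q.coeff 0 = 1) (h2 : 1 ≤ Q.coeff 2) (N m : ℕ)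
    (hN : 1 ≤ N) :
    2 * ((N : ℚ) - m) * (Q ^ N).coeff m ≤ ((m : ℚ) + 2) * (Q ^ N).coeff (m + 2) := by
  obtain ⟨N, rfl⟩ : ∃ M, N = M + 1 := ⟨N - 1, by omega⟩
  have h3 := up hQ N m 1
  have h4 := down hQ h0 N m
  have hc := coeff_nonneg hQ N m
  have hNn : (0 : ℚ) ≤ (N : ℚ) + 1 := by positivity
  have h5 : ((N : ℚ) + 1) * (Q ^ N).coeff m * 2 ≤
      ((N : ℚ) + 1) * (Q ^ N).coeff m * (((1 : ℕ) : ℚ) + 1) * Q.coeff (1 + 1) := by
    have : (0 : ℚ) ≤ ((N : ℚ) + 1) * (Q ^ N).coeff m := mul_nonneg hNn hc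
    have e : (((1 : ℕ) : ℚ) + 1) = 2 := by norm_num
    rw [e]
    nlinarith
  push_cast at h3 h4 h5 ⊢
  have e2 : m + 1 + 1 = m + 2 := by ring
  rw [e2] at h3
  nlinarith [h3, h4, h5]

lemma pos_add (hQ : ∀ i, 0 ≤ Q.coeff i) (h0 : Q.coeff 0 = 1) (h2 : 1 ≤ Q.coeff 2) {N m : ℕ}
    (hN : m < N) (hm : 0 < (Q ^ N).coeff m) : 0 < (Q ^ N).coeff (m + 2) := by
  have h := step hQ h0 h2 N m (by omega)
  have h1 : (0 : ℚ) < (N : ℚ) - m := by
    have : (m : ℚ) < N := by exact_mod_cast hN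
    linarith
  have h3 : 0 < 2 * ((N : ℚ) - m) * (Q ^ N).coeff m := by positivity
  have h4 : 0 < ((m : ℚ) + 2) * (Q ^ N).coeff (m + 2) := lt_of_lt_of_le h3 h
  have h5 : (0 : ℚ) < (m : ℚ) + 2 := by positivity
  exact (mul_pos_iff_of_pos_left h5).mp h4

lemma lt_add (hQ : ∀ i, 0 ≤ Q.coeff i) (h0 : Q.coeff 0 = 1) (h2 : 1 ≤ Q.coeff 2) {N m j : ℕ}
    (hj : 3 * j < 2 * N + 4) (hmj : m + 2 ≤ j) (hm : 0 < (Q ^ N).coeff m) :
    (Q ^ N).coeff m < (Q ^ N).coeff (m + 2) := by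
  have h := step hQ h0 h2 N m (by omega)
  have h1 : ((m : ℚ) + 2) < 2 * ((N : ℚ) - m) := by
    have : (m + 2) + 2 * m < 2 * N := by omega
    have h3 : (((m + 2) + 2 * m : ℕ) : ℚ) < ((2 * N : ℕ) : ℚ) := by exact_mod_cast this
    push_cast at h3
    linarith
  by_contra hc
  push Not at hc
  have h5 : (0 : ℚ) < (m : ℚ) + 2 := by positivity
  have h6 : ((m : ℚ) + 2) * (Q ^ N).coeff (m + 2) ≤ ((m : ℚ) + 2) * (Q ^ N).coeff m :=
    mul_le_mul_of_nonneg_left hc h5.le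
  have h7 : ((m : ℚ) + 2) * (Q ^ N).coeff m < 2 * ((N : ℚ) - m) * (Q ^ N).coeff m :=
    mul_lt_mul_of_pos_right h1 hm
  linarith

/-- Positivity propagates in steps of two. -/
lemma pos_of_pos (hQ : ∀ i, 0 ≤ Q.coeff i) (h0 : Q.coeff 0 = 1) (h2 : 1 ≤ Q.coeff 2) {N o : ℕ}
    (ho : 0 < (Q ^ N).coeff o) (k : ℕ) (hk : o + 2 * k < N + 2) :
    0 < (Q ^ N).coeff (o + 2 * k) := by
  induction k with
  | zero => simpa using ho
  | succ k ih =>
    have h := pos_add hQ h0 h2 (m := o + 2 * k) (N := N) (by omega) (ih (by omega))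
    have e : o + 2 * k + 2 = o + 2 * (k + 1) := by ring
    rwa [e] at h

lemma lt_of_lt (hQ : ∀ i, 0 ≤ Q.coeff i) (h0 : Q.coeff 0 = 1) (h2 : 1 ≤ Q.coeff 2) {N m j : ℕ}
    (hj : 3 * j < 2 * N + 4) (hm : 0 < (Q ^ N).coeff m) (k : ℕ) (hk : m + 2 * (k + 1) ≤ j) :
    (Q ^ N).coeff m < (Q ^ N).coeff (m + 2 * (k + 1)) := by
  induction k with
  | zero => exact lt_add hQ h0 h2 hj (by omega) hm
  | succ k ih =>
    have h1 := ih (by omega)
    have h3 := lt_add hQ h0 h2 hj (m := m + 2 * (k + 1)) (by omega) (hm.trans h1)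
    have e : m + 2 * (k + 1) + 2 = m + 2 * (k + 1 + 1) := by ring
    rw [e] at h3
    exact h1.trans h3

lemma coeff_zero_pow (h0 : Q.coeff 0 = 1) (N : ℕ) : (Q ^ N).coeff 0 = 1 := by
  rw [coeff_zero_eq_eval_zero, eval_pow, ← coeff_zero_eq_eval_zero, h0, one_pow]

/-- The coefficient at `o` is positive if the one of `Q` is. -/
lemma pos_self (hQ : ∀ i, 0 ≤ Q.coeff i) (h0 : Q.coeff 0 = 1) {N o : ℕ} (hN : 1 ≤ N)
    (ho : 0 < Q.coeff o) : 0 < (Q ^ N).coeff o := by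
  obtain ⟨N, rfl⟩ : ∃ M, N = M + 1 := ⟨N - 1, by omega⟩
  rw [pow_succ, coeff_mul]
  refine Finset.sum_pos' (fun x _ => mul_nonneg (coeff_nonneg hQ _ _) (hQ _)) ⟨(0, o), ?_, ?_⟩
  · rw [Finset.HasAntidiagonal.mem_antidiagonal]; simp
  · show 0 < (Q ^ N).coeff 0 * Q.coeff o
    rw [coeff_zero_pow h0, one_mul]
    exact ho

/-- Positivity of the coefficient at `m`. -/
lemma pos_main (hQ : ∀ i, 0 ≤ Q.coeff i) (h0 : Q.coeff 0 = 1) (h2 : 1 ≤ Q.coeff 2) {N m j : ℕ}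
    (hN : 1 ≤ N) (hj : 3 * j < 2 * N + 4) (hmj : m ≤ j)
    (hm : Even m ∨ ∃ o, Odd o ∧ o ≤ m ∧ 0 < Q.coeff o) : 0 < (Q ^ N).coeff m := by
  by_cases hev : Even m
  · obtain ⟨k, hk⟩ := hev
    have h1 : 0 < (Q ^ N).coeff 0 := by rw [coeff_zero_pow h0]; norm_num
    have h3 := pos_of_pos hQ h0 h2 h1 k (by omega)
    have e : 0 + 2 * k = m := by omega
    rwa [e] at h3
  · rcases hm with hm | ⟨o, ho1, ho2, ho3⟩
    · exact absurd hm hev
    · rw [Nat.not_even_iff_odd] at hev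
      obtain ⟨a, ha⟩ := ho1
      obtain ⟨b, hb⟩ := hev
      have h1 := pos_self hQ h0 hN ho3
      have h3 := pos_of_pos hQ h0 h2 h1 (b - a) (by omega)
      have e : o + 2 * (b - a) = m := by omega
      rwa [e] at h3

/-- The coefficient at `m` differs from all others of the same parity. -/
lemma ne_main (hQ : ∀ i, 0 ≤ Q.coeff i) (h0 : Q.coeff 0 = 1) (h2 : 1 ≤ Q.coeff 2) {N m m' j : ℕ}
    (hj : 3 * j < 2 * N + 4) (hmj : m ≤ j) (hmj' : m' ≤ j) (hne : m ≠ m')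
    (hpar : Even m ↔ Even m') (hm : 0 < (Q ^ N).coeff m) :
    (Q ^ N).coeff m' ≠ (Q ^ N).coeff m := by
  rcases lt_or_gt_of_ne hne with h | h
  · obtain ⟨k, hk⟩ : ∃ k, m' = m + 2 * (k + 1) := by
      rcases Nat.even_or_odd m with he | ho
      · obtain ⟨a, ha⟩ := he
        obtain ⟨b, hb⟩ := hpar.mp ⟨a, ha⟩
        exact ⟨b - a - 1, by omega⟩
      · have ho' : Odd m' := by
          rw [← Nat.not_even_iff_odd, ← hpar, Nat.not_even_iff_odd]; exact ho
        obtain ⟨a, ha⟩ := ho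
        obtain ⟨b, hb⟩ := ho'
        exact ⟨b - a - 1, by omega⟩
    have := lt_of_lt hQ h0 h2 hj hm k (by omega)
    rw [← hk] at this
    exact this.ne'
  · rcases (coeff_nonneg hQ N m').eq_or_lt with hz | hz
    · rw [← hz]; exact hm.ne
    · obtain ⟨k, hk⟩ : ∃ k, m = m' + 2 * (k + 1) := by
        rcases Nat.even_or_odd m with he | ho
        · obtain ⟨b, hb⟩ := hpar.mp he
          obtain ⟨a, ha⟩ := he
          exact ⟨a - b - 1, by omega⟩
        · have ho' : Odd m' := by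
            rw [← Nat.not_even_iff_odd, ← hpar, Nat.not_even_iff_odd]; exact ho
          obtain ⟨a, ha⟩ := ho
          obtain ⟨b, hb⟩ := ho'
          exact ⟨a - b - 1, by omega⟩
      have := lt_of_lt hQ h0 h2 hj hz k (by omega)
      rw [← hk] at this
      exact this.ne

end Pool.Agent.K3h15.LD
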