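import Pool.Agent.K3h15.LD.Main

/-!
# The Künneth type standard conjecture and the components of low degree
-/

set_option autoImplicit false
set_option linter.unusedSectionVars false

open CategoryTheory Limits MonoidalCategory Filter
open Pool.Agent.Y112.SR Pool.Agent.Y112.KD Pool.Agent.Y112.SC Pool.Agent.K3h63.CC

namespace Pool.Agent.K3h15.LD

universe v u w

section

variable {C : Type u} [Category.{v} C] [Preadditive C] [MonoidalCategory C] [SymmetricCategory C]
  {K : Type w} [Field K] {R : SuperRealisation C K}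

/-- The properties of the cohomology of connected smooth projective varieties, for a class `𝒱` of
objects with a dimension `d`: `H^i X = 0` for `i < 0` and for `i > 2 d`, `H^0 X` has dimension one,
`H^2 X ≠ 0` if `d > 0`, `H^i X ≠ 0` implies `H^(2 d - i) X ≠ 0`, and the powers `X ^ n`, `n ≥ 1`,
belong to the class and have dimension `n d`. -/
structure IsGeometric (G : Grading R) (𝒱 : Set C) (d : C → ℕ) : Prop where
  range : ∀ X ∈ 𝒱, ∀ i : ℤ, G.pr X i ≠ 0 → 0 ≤ i ∧ i ≤ 2 * d X
  conn : ∀ X ∈ 𝒱, betti G X 0 = 1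
  ample : ∀ X ∈ 𝒱, 0 < d X → G.pr X 2 ≠ 0
  dual : ∀ X ∈ 𝒱, ∀ i : ℤ, G.pr X i ≠ 0 → G.pr X (2 * d X - i) ≠ 0
  pow : ∀ X ∈ 𝒱, ∀ n : ℕ, 1 ≤ n → tp X n ∈ 𝒱 ∧ d (tp X n) = n * d X

/-- Every degree `i ≤ j` of `X` has the parity of `j`, or there is an odd degree `≤ j - i`. -/
def ParityCondition (G : Grading R) (X : C) (j : ℕ) : Prop :=
  ∀ i : ℤ, i ≤ j → G.pr X i ≠ 0 →
    Even ((j : ℤ) - i) ∨ ∃ o : ℤ, Odd o ∧ o ≤ j - i ∧ G.pr X o ≠ 0

lemma parity_of_one (G : Grading R) {X : C} (h : G.pr X 1 ≠ 0) (j : ℕ) :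
    ParityCondition G X j := by
  intro i hi _
  rcases Int.even_or_odd ((j : ℤ) - i) with he | ho
  · exact Or.inl he
  · refine Or.inr ⟨1, odd_one, ?_, h⟩
    obtain ⟨k, hk⟩ := ho
    omega

end

section

variable {C : Type u} [Category.{v} C] [Preadditive C] [Linear ℚ C] [MonoidalCategory C]
  [MonoidalPreadditive C] [MonoidalLinear ℚ C] [SymmetricCategory C]
  [RightRigidCategory C] {K : Type w} [Field K] [CharZero K] {R : SuperRealisation C K}
  {L : Subfield K} (G : Grading R)

theorem low {X : C} (hneg : ∀ i : ℤ, i < 0 → G.pr X i = 0) (h0 : betti G X 0 = 1)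
    (h2 : G.pr X 2 ≠ 0) {j n : ℕ} (hn : 2 ≤ n) (hj : 3 * j < 2 * n + 2)
    (hc : ParityCondition G X j) :
    Algebraic R L (G.pr (tp X n) j) ↔ ∀ i : ℤ, i ≤ j → Algebraic R L (G.pr X i) := by
  constructor
  · intro h i hi
    by_cases hz : G.pr X i = 0
    · rw [hz]
      exact Algebraic.zero X X
    · exact main1 G hneg h0 h2 hn hj h i hi (hc i hi hz)
  · intro h
    exact (main2 G hneg h n).2 j le_rfl

theorem full {X : C} (hneg : ∀ i : ℤ, i < 0 → G.pr X i = 0) (h0 : betti G X 0 = 1)
    (h2 : G.pr X 2 ≠ 0) {j n : ℕ} (hn : 2 ≤ n) (hj : 3 * j < 2 * n + 2)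
    (hc : ParityCondition G X j) (htop : ∀ i : ℤ, j < i → G.pr X i = 0) :
    G.KunnethC L X ↔ Algebraic R L (G.pr (tp X n) j) := by
  rw [low G hneg h0 h2 hn hj hc]
  constructor
  · intro h i _
    exact h i
  · intro h i
    by_cases hi : i ≤ j
    · exact h i hi
    · rw [htop i (by omega)]
      exact Algebraic.zero X X

theorem geom {𝒱 : Set C} {d : C → ℕ} (hG : IsGeometric G 𝒱 d) {X : C} (hX : X ∈ 𝒱) {n : ℕ}
    (hn : 2 ≤ n) (hd : 3 * d X ≤ n) :
    G.KunnethC L X ↔ Algebraic R L (G.pr (tp X n) ((2 * d X : ℕ) : ℤ)) := by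
  have hneg : ∀ i : ℤ, i < 0 → G.pr X i = 0 := by
    intro i hi
    by_contra hc
    have := (hG.range X hX i hc).1
    omega
  rcases Nat.eq_zero_or_pos (d X) with h0 | h0
  · have hC : G.KunnethC L X := by
      have h1 : ∀ i : ℤ, i ≠ 0 → G.pr X i = 0 := by
        intro i hi
        by_contra hc
        have := hG.range X hX i hc
        rw [h0] at this
        push_cast at this
        omega
      have h2 : G.pr X 0 = 𝟙 _ := by
        obtain ⟨D, hD1, hD⟩ := exists_bound G hneg 1
        rw [← hD, Finset.sum_eq_single 0]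
        · rfl
        · intro b _ hb
          exact h1 b (by exact_mod_cast hb)
        · intro h
          exact absurd (Finset.mem_range.mpr (by omega)) h
      intro i
      by_cases hi : i = 0
      · rw [hi, h2]
        exact Algebraic.one X
      · rw [h1 i hi]
        exact Algebraic.zero X X
    exact ⟨fun h => C_tp G h n _, fun _ => hC⟩
  · refine full G hneg (hG.conn X hX) (hG.ample X hX h0) hn (by omega) ?_ ?_
    · intro i hi hne
      rcases Int.even_or_odd ((2 * d X : ℕ) - i : ℤ) with he | ho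
      · exact Or.inl he
      · right
        refine ⟨2 * d X - i, ?_, ?_, hG.dual X hX i hne⟩
        · push_cast at ho
          exact ho
        · push_cast
          exact le_rfl
    · intro i hi
      by_contra hc
      have := (hG.range X hX i hc).2
      push_cast at hi
      omega

theorem slow {𝒱 : Set C} {d : C → ℕ} (hG : IsGeometric G 𝒱 d) {f : ℕ → ℕ}
    (hf : Tendsto f atTop atTop) :
    (∀ Z ∈ 𝒱, ∀ j : ℕ, Even j → j ≤ f (d Z) → Algebraic R L (G.pr Z j)) ↔
      ∀ Z ∈ 𝒱, G.KunnethC L Z := by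
  constructor
  · intro h X hX
    rcases Nat.eq_zero_or_pos (d X) with h0 | h0
    · rw [geom G hG hX (n := 2) le_rfl (by omega)]
      have hp := hG.pow X hX 2 (by norm_num)
      exact h _ hp.1 _ ⟨d X, by ring⟩ (by rw [h0]; simp)
    · obtain ⟨M, hM⟩ := (tendsto_atTop.mp hf (2 * d X)).exists_forall_of_atTop
      set n := max (max 2 (3 * d X)) M with hn
      have n2 : 2 ≤ n := (le_max_left _ _).trans (le_max_left _ _)
      have n3 : 3 * d X ≤ n := (le_max_right _ _).trans (le_max_left _ _)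
      have nM : M ≤ n := le_max_right _ _
      rw [geom G hG hX n2 n3]
      have hp := hG.pow X hX n (by omega)
      refine h _ hp.1 _ ⟨d X, by ring⟩ (hM _ ?_)
      rw [hp.2]
      exact nM.trans (Nat.le_mul_of_pos_right _ h0)
  · intro h Z hZ j _ _
    exact h Z hZ j

end

end Pool.Agent.K3h15.LD
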