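import Pool.Agent.K3h14.FD.Ten
import Pool.Agent.K3h15.LD.Comb

/-!
# One Künneth component of a power decides all components of low degree
-/

set_option autoImplicit false
set_option linter.unusedSectionVars false
set_option linter.unusedSimpArgs false
set_option backward.isDefEq.respectTransparency false
set_option backward.defeqAttrib.useBackward true

open CategoryTheory Limits MonoidalCategory
open Pool.Agent.Y112.SR Pool.Agent.Y112.KD Pool.Agent.Y112.SC Pool.Agent.K3h63.CC

namespace Pool.Agent.K3h15.LD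

universe v u w

section

variable {C : Type u} [Category.{v} C] [Preadditive C] [MonoidalCategory C] [SymmetricCategory C]
  {K : Type w} [Field K] {R : SuperRealisation C K}

/-- The dimension of `H^i X`, the rank of the projector `pr X i`. -/
noncomputable def betti (G : Grading R) (X : C) (i : ℤ) : ℕ :=
  Module.finrank K (LinearMap.range (G.pr X i).hom)

end

section

variable {C : Type u} [Category.{v} C] [Preadditive C] [Linear ℚ C] [MonoidalCategory C]
  [MonoidalPreadditive C] [MonoidalLinear ℚ C] [SymmetricCategory C]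
  [RightRigidCategory C] {K : Type w} [Field K] [CharZero K] {R : SuperRealisation C K}
  {L : Subfield K} (G : Grading R)

lemma tr_pr (X : C) (i : ℤ) : tr _ (G.pr X i) = (betti G X i : K) := by
  have hV := R.finite X
  have he' : IsIdempotentElem (G.pr X i).hom := congrArg ModuleCat.Hom.hom (G.idem X i)
  exact (LinearMap.IsIdempotentElem.isProj_range _ he').trace

lemma betti_pos {X : C} {i : ℤ} (h : G.pr X i ≠ 0) : 0 < betti G X i := by
  by_contra hc
  have h0 : betti G X i = 0 := by omega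
  have hV := R.finite X
  obtain ⟨p, hp, hp0⟩ := tr_idem hV (G.pr X i) (G.idem X i)
  rw [tr_pr, h0, Nat.cast_zero] at hp
  exact h (hp0 (by exact_mod_cast hp.symm))

lemma sgn_mul (a b : ℤ) : sgn a * sgn b = sgn (a + b) := by
  rcases Int.even_or_odd a with ha | ha <;> rcases Int.even_or_odd b with hb | hb
  · rw [sgn_even ha, sgn_even hb, sgn_even (ha.add hb)]; norm_num
  · rw [sgn_even ha, sgn_odd hb, sgn_odd (ha.add_odd hb)]; norm_num
  · rw [sgn_odd ha, sgn_even hb, sgn_odd (ha.add_even hb)]; norm_num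
  · rw [sgn_odd ha, sgn_odd hb, sgn_even (ha.add_odd hb)]; norm_num

/-- The operation on the eigenvalues of diagonal operators given by the partial trace. -/
noncomputable def T (X : C) (D : ℕ) (z : ℤ → ℚ) : ℤ → ℚ := fun k =>
  ∑ i ∈ Finset.range D, (sgn (i : ℤ) * (betti G X (i : ℤ) : ℚ)) * z (k + i)

lemma PT_sum {Q X : C} {ι : Type*} (s : Finset ι) (x : ι → (R.H.obj (Q ⊗ X) ⟶ R.H.obj (Q ⊗ X))) :
    PT R (∑ i ∈ s, x i) = ∑ i ∈ s, PT R (x i) := by
  classical
  induction s using Finset.induction_on with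
  | empty =>
    have h := PT_smul R (0 : K) (0 : R.H.obj (Q ⊗ X) ⟶ R.H.obj (Q ⊗ X))
    rw [zero_smul, zero_smul] at h
    rw [Finset.sum_empty, Finset.sum_empty, h]
  | insert i s hi ih => rw [Finset.sum_insert hi, Finset.sum_insert hi, PT_add, ih]

lemma th_tensor {X : C} {D : ℕ} (hD : ∑ i ∈ Finset.range D, G.pr X (i : ℤ) = 𝟙 _) (Q : C)
    (z : ℤ → ℚ) : G.th (Q ⊗ X) z = ∑ a ∈ G.supp Q, ∑ i ∈ Finset.range D,
      (z (a + i) : K) • bx R (G.pr Q a) (G.pr X (i : ℤ)) := by
  have h1 : G.th (Q ⊗ X) z = bx R (𝟙 (R.H.obj Q)) (𝟙 (R.H.obj X)) ≫ G.th (Q ⊗ X) z := by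
    rw [bx_one, Category.id_comp]
  rw [h1, ← G.sum_supp Q, ← hD, ← bx_sum_left]
  simp only [← bx_sum_right, Preadditive.sum_comp]
  refine Finset.sum_congr rfl fun a _ => Finset.sum_congr rfl fun i _ => ?_
  calc bx R (G.pr Q a) (G.pr X (i : ℤ)) ≫ G.th (Q ⊗ X) z
      = (bx R (G.pr Q a) (G.pr X (i : ℤ)) ≫ G.pr (Q ⊗ X) (a + i)) ≫ G.th (Q ⊗ X) z := by
        rw [G.bx_pr]
    _ = (z (a + i) : K) • (bx R (G.pr Q a) (G.pr X (i : ℤ)) ≫ G.pr (Q ⊗ X) (a + i)) := by
        rw [Category.assoc, G.pr_th, Linear.comp_smul]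
    _ = _ := by rw [G.bx_pr]

lemma PT_th {X : C} {D : ℕ} (hD : ∑ i ∈ Finset.range D, G.pr X (i : ℤ) = 𝟙 _) (Q : C)
    (z : ℤ → ℚ) : PT R (G.th (Q ⊗ X) z) = G.th Q (T G X D z) := by
  rw [th_tensor G hD, PT_sum, Grading.th]
  refine Finset.sum_congr rfl fun a _ => ?_
  rw [PT_sum]
  have h1 : ∀ i ∈ Finset.range D, PT R ((z (a + (i : ℤ)) : K) • bx R (G.pr Q a) (G.pr X (i : ℤ)))
      = ((sgn (i : ℤ) * (betti G X (i : ℤ) : ℚ) * z (a + i) : ℚ) : K) • G.pr Q a := by
    intro i _
    rw [PT_smul, PT_bx R two_ne_zero, ← tr_apply, G.pr_par, map_smul, tr_pr, smul_smul]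
    congr 1
    push_cast
    rw [smul_eq_mul]
    ring
  rw [Finset.sum_congr rfl h1, ← Finset.sum_smul]
  congr 1
  rw [T]
  push_cast
  rfl

lemma chain {X : C} {D : ℕ} (hD : ∑ i ∈ Finset.range D, G.pr X (i : ℤ) = 𝟙 _) (N : ℕ) :
    ∀ z : ℤ → ℚ, Algebraic R L (G.th (tp X (N + 1)) z) →
      Algebraic R L (G.th (tp X 1) ((T G X D)^[N] z)) := by
  induction N with
  | zero => intro z h; exact h
  | succ N ih =>
    intro z h
    rw [Function.iterate_succ_apply]
    apply ih
    have h1 : Algebraic R L (PT R (Q := tp X (N + 1)) (X := X) (G.th (tp X (N + 1) ⊗ X) z)) :=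
      Algebraic.PT h
    rwa [PT_th G hD] at h1

open Polynomial in
/-- The Poincaré polynomial without signs. -/
noncomputable def poin (X : C) (D : ℕ) : ℚ[X] :=
  ∑ i ∈ Finset.range D, Polynomial.C (betti G X (i : ℤ) : ℚ) * Polynomial.X ^ i

lemma poin_coeff (X : C) (D m : ℕ) :
    (poin G X D).coeff m = if m < D then (betti G X (m : ℤ) : ℚ) else 0 := by
  rw [poin, Polynomial.finsetSum_coeff]
  simp only [Polynomial.coeff_C_mul, Polynomial.coeff_X_pow, mul_ite, mul_one, mul_zero]
  rw [Finset.sum_ite_eq]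
  simp only [Finset.mem_range]

lemma iter (X : C) (D j : ℕ) (s : ℕ) : ∀ k : ℤ,
    ((T G X D)^[s] (Pi.single (j : ℤ) 1)) k =
      if k ≤ j then sgn (j - k) * ((poin G X D) ^ s).coeff ((j : ℤ) - k).toNat else 0 := by
  induction s with
  | zero =>
    intro k
    rw [Function.iterate_zero, id, pow_zero, Polynomial.coeff_one]
    by_cases hk : k = j
    · subst hk
      simp [sgn_even]
    · rw [Pi.single_eq_of_ne hk]
      split_ifs with h1 h2
      · exfalso; omega
      · rw [mul_zero]
      · rfl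
  | succ s ih =>
    intro k
    rw [Function.iterate_succ_apply', T]
    simp only [ih]
    split_ifs with hk
    · obtain ⟨m, hm⟩ : ∃ m : ℕ, (j : ℤ) - k = m := ⟨((j : ℤ) - k).toNat, by omega⟩
      have e : (poin G X D) ^ (s + 1) = ∑ i ∈ Finset.range D,
          Polynomial.C (betti G X (i : ℤ) : ℚ) * ((poin G X D) ^ s * Polynomial.X ^ i) := by
        rw [pow_succ]
        conv_lhs => rw [poin]
        rw [Finset.mul_sum]
        refine Finset.sum_congr rfl fun i _ => ?_
        rw [poin]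
        ring
      rw [e, Polynomial.finsetSum_coeff, Finset.mul_sum]
      refine Finset.sum_congr rfl fun i _ => ?_
      rw [Polynomial.coeff_C_mul, Polynomial.coeff_mul_X_pow']
      have e2 : ((j : ℤ) - k).toNat = m := by omega
      rw [e2]
      by_cases hi : i ≤ m
      · rw [if_pos (by omega : k + (i : ℤ) ≤ j), if_pos hi]
        have e3 : ((j : ℤ) - (k + i)).toNat = m - i := by omega
        have e4 : sgn ((j : ℤ) - k) = sgn (i : ℤ) * sgn ((j : ℤ) - (k + i)) := by
          rw [sgn_mul]; congr 1; ring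
        rw [e3, e4]
        ring
      · rw [if_neg (by omega : ¬ k + (i : ℤ) ≤ j), if_neg hi]
        ring
    · refine Finset.sum_eq_zero fun i _ => ?_
      rw [if_neg (by omega), mul_zero]

/-- A projector is algebraic if an algebraic diagonal operator separates its degree. -/
lemma pr_of_th {X : C} {z : ℤ → ℚ} (hz : Algebraic R L (G.th X z)) (i : ℤ)
    (hsep : ∀ j, j ≠ i → G.pr X j ≠ 0 → z j ≠ z i) : Algebraic R L (G.pr X i) := by
  classical
  have key : ∀ S : Finset ℤ, i ∉ S → ∃ y : ℤ → ℚ, Algebraic R L (G.th X y) ∧ y i = 1 ∧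
      ∀ j ∈ S, G.pr X j ≠ 0 → y j = 0 := by
    intro S
    induction S using Finset.induction_on with
    | empty =>
      intro _
      refine ⟨fun _ => 1, ?_, rfl, fun j hj => absurd hj (Finset.notMem_empty j)⟩
      rw [G.th_one]
      exact Algebraic.one X
    | insert j S hj ih =>
      intro hiS
      rw [Finset.mem_insert, not_or] at hiS
      obtain ⟨y, hy, hy1, hy2⟩ := ih hiS.2
      by_cases hjz : G.pr X j = 0
      · refine ⟨y, hy, hy1, fun l hl hl0 => ?_⟩
        rcases Finset.mem_insert.mp hl with rfl | hl'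
        · exact absurd hjz hl0
        · exact hy2 l hl' hl0
      have hne := hsep j (fun h => hiS.1 h.symm) hjz
      refine ⟨y * ((z i - z j)⁻¹ • (z - (z j) • (fun _ => 1))), ?_, ?_, fun l hl hl0 => ?_⟩
      · rw [← G.th_comp, G.th_smul, G.th_sub, G.th_smul, G.th_one]
        exact hy.comp ((hz.sub ((Algebraic.one X).rat _)).rat _)
      · have h3 : z i - z j ≠ 0 := sub_ne_zero.mpr hne.symm
        rw [Pi.mul_apply, hy1, Pi.smul_apply, Pi.sub_apply, Pi.smul_apply, smul_eq_mul,
          smul_eq_mul, mul_one, one_mul, inv_mul_cancel₀ h3]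
      · rcases Finset.mem_insert.mp hl with rfl | hl'
        · rw [Pi.mul_apply, Pi.smul_apply, Pi.sub_apply, Pi.smul_apply, smul_eq_mul,
            smul_eq_mul, mul_one, sub_self, mul_zero, mul_zero]
        · rw [Pi.mul_apply, hy2 l hl' hl0, zero_mul]
  obtain ⟨y, hy, hy1, hy2⟩ := key ((G.supp X).erase i) (Finset.notMem_erase i _)
  have h1 : G.th X y = G.pr X i := by
    rw [← G.th_single]
    apply G.th_congr
    intro j hj
    by_cases hji : j = i
    · subst hji
      rw [hy1, Pi.single_eq_same]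
    · rw [Pi.single_eq_of_ne hji]
      refine hy2 j (Finset.mem_erase.mpr ⟨hji, ?_⟩) hj
      by_contra h2
      exact hj (G.pr_zero h2)
  rw [← h1]
  exact hy

lemma th_one_factor {X : C} {z : ℤ → ℚ} (h : Algebraic R L (G.th (tp X 1) z)) :
    Algebraic R L (G.th X z) := by
  have h1 : G.th X z = R.H.map (λ_ X).inv ≫ G.th (𝟙_ C ⊗ X) z ≫ R.H.map (λ_ X).hom := by
    rw [← Category.assoc, G.th_natural, Category.assoc, ← Functor.map_comp, Iso.inv_hom_id,
      CategoryTheory.Functor.map_id, Category.comp_id]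
  rw [h1]
  exact (Algebraic.map _).comp (h.comp (Algebraic.map _))

/-- The degrees lie in an interval `[0, D)`. -/
lemma exists_bound {X : C} (hneg : ∀ i : ℤ, i < 0 → G.pr X i = 0) (B : ℕ) :
    ∃ D : ℕ, B ≤ D ∧ ∑ i ∈ Finset.range D, G.pr X (i : ℤ) = 𝟙 _ := by
  classical
  obtain ⟨M, hM⟩ : ∃ M : ℕ, ∀ i ∈ G.supp X, i < (M : ℤ) := by
    obtain ⟨S, hS⟩ : ∃ S : ℕ, S = ∑ i ∈ G.supp X, i.natAbs := ⟨_, rfl⟩
    refine ⟨S + 1, fun i hi => ?_⟩
    have h1 : i.natAbs ≤ S := by
      rw [hS]
      exact Finset.single_le_sum (f := fun i : ℤ => i.natAbs) (fun _ _ => Nat.zero_le _) hi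
    omega
  refine ⟨max B M, le_max_left _ _, ?_⟩
  rw [← G.sum_supp X]
  have e1 : ∑ i ∈ Finset.range (max B M), G.pr X (i : ℤ)
      = ∑ i ∈ (Finset.range (max B M)).map Nat.castEmbedding, G.pr X i := by
    rw [Finset.sum_map]; rfl
  rw [e1]
  have e2 : ∑ i ∈ (Finset.range (max B M)).map Nat.castEmbedding, G.pr X i
      = ∑ i ∈ G.supp X ∪ (Finset.range (max B M)).map Nat.castEmbedding, G.pr X i := by
    refine Finset.sum_subset Finset.subset_union_right fun i hi hi' => ?_
    by_cases h0 : i < 0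
    · exact hneg i h0
    · exfalso
      rcases Finset.mem_union.mp hi with h | h
      · apply hi'
        rw [Finset.mem_map]
        refine ⟨i.toNat, ?_, ?_⟩
        · rw [Finset.mem_range]
          have h1 := hM i h
          have h2 : M ≤ max B M := le_max_right _ _
          omega
        · show ((i.toNat : ℕ) : ℤ) = i
          omega
      · exact hi' h
  have e3 : ∑ i ∈ G.supp X, G.pr X i
      = ∑ i ∈ G.supp X ∪ (Finset.range (max B M)).map Nat.castEmbedding, G.pr X i := by
    refine Finset.sum_subset Finset.subset_union_left fun i _ hi' => G.pr_zero hi'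
  rw [e2, e3]

/-- The eigenvalues separate. -/
theorem main1 {X : C} (hneg : ∀ i : ℤ, i < 0 → G.pr X i = 0) (h0 : betti G X 0 = 1)
    (h2 : G.pr X 2 ≠ 0) {j n : ℕ} (hn : 2 ≤ n) (hj : 3 * j < 2 * n + 2)
    (h : Algebraic R L (G.pr (tp X n) j)) (i : ℤ) (hi : i ≤ j)
    (hpar : Even ((j : ℤ) - i) ∨ ∃ o : ℤ, Odd o ∧ o ≤ j - i ∧ G.pr X o ≠ 0) :
    Algebraic R L (G.pr X i) := by
  by_cases hi0 : i < 0
  · rw [hneg i hi0]
    exact Algebraic.zero X X
  obtain ⟨N, rfl⟩ : ∃ N, n = N + 1 := ⟨n - 1, by omega⟩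
  obtain ⟨D, hDj, hD⟩ := exists_bound G hneg (j + 3)
  set P := poin G X D with hP
  have hQ : ∀ i, 0 ≤ P.coeff i := by
    intro i
    rw [hP, poin_coeff]
    split_ifs
    · positivity
    · exact le_rfl
  have hQ0 : P.coeff 0 = 1 := by
    rw [hP, poin_coeff, if_pos (by omega)]
    have : betti G X ((0 : ℕ) : ℤ) = 1 := h0
    rw [this]; norm_num
  have hQ2 : 1 ≤ P.coeff 2 := by
    rw [hP, poin_coeff, if_pos (by omega)]
    have : 0 < betti G X ((2 : ℕ) : ℤ) := betti_pos G h2
    exact_mod_cast this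
  have hth : Algebraic R L (G.th (tp X (N + 1)) (Pi.single (j : ℤ) 1)) := by
    rw [G.th_single]; exact h
  have hz := th_one_factor G (chain G hD N _ hth)
  obtain ⟨m, hm⟩ : ∃ m : ℕ, (j : ℤ) - i = m := ⟨((j : ℤ) - i).toNat, by omega⟩
  have hmj : m ≤ j := by omega
  have hmpos : 0 < (P ^ N).coeff m := by
    refine pos_main hQ hQ0 hQ2 (by omega) (by omega : 3 * j < 2 * N + 4) hmj ?_
    rcases hpar with he | ⟨o, ho1, ho2, ho3⟩
    · left
      rw [hm] at he
      exact_mod_cast he
    · right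
      have ho0 : 0 ≤ o := by
        by_contra hc
        exact ho3 (hneg o (by omega))
      obtain ⟨o', rfl⟩ : ∃ o' : ℕ, o = o' := ⟨o.toNat, by omega⟩
      refine ⟨o', by exact_mod_cast ho1, by omega, ?_⟩
      rw [hP, poin_coeff, if_pos (by omega)]
      exact_mod_cast betti_pos G ho3
  refine pr_of_th G hz i fun i' hne hi' => ?_
  rw [iter, iter, if_pos hi]
  have hi'0 : 0 ≤ i' := by
    by_contra hc
    exact hi' (hneg i' (by omega))
  have em : ((j : ℤ) - i).toNat = m := by omega
  rw [em, ← hP]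
  have hs : sgn ((j : ℤ) - i) = 1 ∨ sgn ((j : ℤ) - i) = -1 := by
    rcases Int.even_or_odd ((j : ℤ) - i) with h' | h'
    · left; exact sgn_even h'
    · right; exact sgn_odd h'
  by_cases hle : i' ≤ j
  · rw [if_pos hle]
    obtain ⟨m', hm'⟩ : ∃ m' : ℕ, (j : ℤ) - i' = m' := ⟨((j : ℤ) - i').toNat, by omega⟩
    have em' : ((j : ℤ) - i').toNat = m' := by omega
    rw [em']
    have hmne : m ≠ m' := by omega
    have hnn := coeff_nonneg hQ N m'
    by_cases hp : Even m ↔ Even m'
    · have h3 := ne_main hQ hQ0 hQ2 (by omega : 3 * j < 2 * N + 4) hmj (by omega) hmne hp hmpos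
      have h4 : sgn ((j : ℤ) - i') = sgn ((j : ℤ) - i) := by
        rw [hm, hm']
        rcases Nat.even_or_odd m with he | ho
        · rw [sgn_even (by exact_mod_cast hp.mp he), sgn_even (by exact_mod_cast he)]
        · have ho' : Odd m' := by
            rw [← Nat.not_even_iff_odd, ← hp, Nat.not_even_iff_odd]; exact ho
          rw [sgn_odd (by exact_mod_cast ho'), sgn_odd (by exact_mod_cast ho)]
      rw [h4]
      intro h5
      apply h3
      rcases hs with h6 | h6 <;> rw [h6] at h5 <;> linarith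
    · have h4 : sgn ((j : ℤ) - i') = - sgn ((j : ℤ) - i) := by
        rw [hm, hm']
        rcases Nat.even_or_odd m with he | ho
        · have ho' : Odd m' := by
            rw [← Nat.not_even_iff_odd]
            intro h7; exact hp ⟨fun _ => h7, fun _ => he⟩
          rw [sgn_odd (by exact_mod_cast ho'), sgn_even (by exact_mod_cast he)]
        · have he' : Even m' := by
            by_contra h7
            exact hp ⟨fun h8 => absurd h8 (Nat.not_even_iff_odd.mpr ho), fun h8 => absurd h8 h7⟩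
          rw [sgn_even (by exact_mod_cast he'), sgn_odd (by exact_mod_cast ho)]; norm_num
      rw [h4]
      intro h5
      rcases hs with h6 | h6 <;> rw [h6] at h5 <;> linarith
  · rw [if_neg hle]
    intro h5
    rcases hs with h6 | h6 <;> rw [h6] at h5 <;> linarith

/-- The components of low degree of a power. -/
theorem main2 {X : C} (hneg : ∀ i : ℤ, i < 0 → G.pr X i = 0) {j : ℤ}
    (h : ∀ i : ℤ, i ≤ j → Algebraic R L (G.pr X i)) (n : ℕ) :
    (∀ k : ℤ, k < 0 → G.pr (tp X n) k = 0) ∧
      ∀ k : ℤ, k ≤ j → Algebraic R L (G.pr (tp X n) k) := by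
  obtain ⟨D, _, hD⟩ := exists_bound G hneg 0
  induction n with
  | zero =>
    have h1 : ∀ k : ℤ, k ≠ 0 → G.pr (tp X 0) k = 0 := by
      intro k hk
      have h2 := G.orth (𝟙_ C) 0 k hk.symm
      rw [G.unit, Category.id_comp] at h2
      exact h2
    refine ⟨fun k hk => h1 k hk.ne, fun k _ => ?_⟩
    by_cases hk : k = 0
    · subst hk
      have h2 : G.pr (tp X 0) 0 = 𝟙 _ := G.unit
      rw [h2]
      exact Algebraic.one _
    · rw [h1 k hk]
      exact Algebraic.zero _ _
  | succ n ih =>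
    have e : ∀ k : ℤ, G.pr (tp X (n + 1)) k = ∑ a ∈ G.supp (tp X n), ∑ i ∈ Finset.range D,
        ((Pi.single k 1 : ℤ → ℚ) (a + i) : K) • bx R (G.pr (tp X n) a) (G.pr X (i : ℤ)) := by
      intro k
      rw [← th_tensor G hD, G.th_single]
    constructor
    · intro k hk
      rw [e]
      refine Finset.sum_eq_zero fun a _ => Finset.sum_eq_zero fun i _ => ?_
      by_cases hai : a + (i : ℤ) = k
      · have ha : a < 0 := by omega
        rw [ih.1 a ha, bx_zero_left, smul_zero]
      · rw [Pi.single_eq_of_ne hai, Rat.cast_zero, zero_smul]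
    · intro k hk
      rw [e]
      refine Algebraic.sum _ fun a _ => Algebraic.sum _ fun i _ => ?_
      by_cases hai : a + (i : ℤ) = k
      · by_cases ha : a < 0
        · rw [ih.1 a ha, bx_zero_left, smul_zero]
          exact Algebraic.zero _ _
        · exact (Algebraic.bx (ih.2 a (by omega)) (h i (by omega))).rat _
      · rw [Pi.single_eq_of_ne hai, Rat.cast_zero, zero_smul]
        exact Algebraic.zero _ _

end

end Pool.Agent.K3h15.LD
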