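import Mathlib

/-!
# Convolution powers of symmetric unimodal sequences
-/

set_option autoImplicit false

namespace Pool.Agent.K3h15.LD.Seq

open Finset

/-- The convolution powers of a sequence supported in `[0, 2 d]`. -/
noncomputable def cc (b : ℤ → ℚ) (d : ℤ) : ℕ → ℤ → ℚ
  | 0 => Pi.single 0 1
  | s + 1 => fun m => ∑ i ∈ Icc (0:ℤ) (2 * d), b i * cc b d s (m - i)

/-- Symmetric sequences, unimodal in each parity. -/
structure Hyp (b : ℤ → ℚ) (d : ℤ) : Prop where
  d0 : 0 ≤ d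
  nn : ∀ i, 0 ≤ b i
  neg : ∀ i, i < 0 → b i = 0
  one : b 0 = 1
  symm : ∀ i, b (2 * d - i) = b i
  mono : ∀ i, i ≤ d → b (i - 2) ≤ b i

lemma le_of_step {F : ℤ → ℚ} {c : ℤ} (W : ∀ m, m - 1 ≤ c → F (m - 2) ≤ F m) (y : ℤ) (k : ℕ) :
    y + 2 * k ≤ c + 1 → F y ≤ F (y + 2 * k) := by
  induction k with
  | zero => intro _; simp
  | succ k ih =>
    intro h
    push_cast at h
    have h1 := ih (by omega)
    have h2 := W (y + 2 * (k + 1)) (by omega)
    have e : y + 2 * ((k : ℤ) + 1) - 2 = y + 2 * k := by ring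
    rw [e] at h2
    push_cast
    exact h1.trans h2

lemma compare {F : ℤ → ℚ} {c : ℤ} (S : ∀ m, F (2 * c - m) = F m)
    (W : ∀ m, m - 1 ≤ c → F (m - 2) ≤ F m) {x y : ℤ} (hyx : y ≤ x) (he : Even (x - y))
    (hs : x + y ≤ 2 * c) : F y ≤ F x := by
  obtain ⟨r, hr⟩ := he
  by_cases hx : x ≤ c + 1
  · have h := le_of_step W y r.toNat (by omega)
    have e : y + 2 * (r.toNat : ℤ) = x := by omega
    rwa [e] at h
  · have h := le_of_step W y (c - x + r).toNat (by omega)
    have e : y + 2 * ((c - x + r).toNat : ℤ) = 2 * c - x := by omega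
    rw [e, S] at h
    exact h

lemma compare_lt {F : ℤ → ℚ} {c : ℤ} (S : ∀ m, F (2 * c - m) = F m)
    (W : ∀ m, m - 1 ≤ c → F (m - 2) ≤ F m) {x y : ℤ} (hyx : y < x) (he : Even (x - y))
    (hs : x + y < 2 * c) (h1 : x ≤ c → F (x - 2) < F x)
    (h2 : c < x → F (2 * c - x - 2) < F (2 * c - x)) : F y < F x := by
  obtain ⟨r, hr⟩ := he
  by_cases hx : x ≤ c
  · refine lt_of_le_of_lt (compare S W (x := x - 2) (y := y) (by omega) ⟨r - 1, by omega⟩
      (by omega)) (h1 hx)
  · have h3 := h2 (by omega)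
    have h4 := compare S W (x := 2 * c - x - 2) (y := y) (by omega) ⟨c - x - 1 + r, by omega⟩
      (by omega)
    rw [S] at h3
    exact lt_of_le_of_lt h4 h3

section

variable {b : ℤ → ℚ} {d : ℤ}

lemma cc_nonneg (h : Hyp b d) (s : ℕ) : ∀ m, 0 ≤ cc b d s m := by
  induction s with
  | zero =>
    intro m
    show 0 ≤ (Pi.single 0 1 : ℤ → ℚ) m
    by_cases hm : m = 0
    · subst hm; simp
    · rw [Pi.single_eq_of_ne hm]
  | succ s ih =>
    intro m
    exact Finset.sum_nonneg fun i _ => mul_nonneg (h.nn i) (ih _)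

lemma cc_neg (s : ℕ) : ∀ m, m < 0 → cc b d s m = 0 := by
  induction s with
  | zero =>
    intro m hm
    show (Pi.single 0 1 : ℤ → ℚ) m = 0
    rw [Pi.single_eq_of_ne hm.ne]
  | succ s ih =>
    intro m hm
    refine Finset.sum_eq_zero fun i hi => ?_
    rw [Finset.mem_Icc] at hi
    rw [ih _ (by omega), mul_zero]

lemma cc_symm (h : Hyp b d) (s : ℕ) : ∀ m, cc b d s (2 * (d * s) - m) = cc b d s m := by
  induction s with
  | zero =>
    intro m
    show (Pi.single 0 1 : ℤ → ℚ) _ = (Pi.single 0 1 : ℤ → ℚ) m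
    by_cases hm : m = 0
    · subst hm; simp
    · rw [Pi.single_eq_of_ne hm, Pi.single_eq_of_ne]
      push_cast
      omega
  | succ s ih =>
    intro m
    show ∑ i ∈ Icc (0:ℤ) (2 * d), b i * cc b d s (2 * (d * ((s + 1 : ℕ) : ℤ)) - m - i) =
      ∑ i ∈ Icc (0:ℤ) (2 * d), b i * cc b d s (m - i)
    refine Finset.sum_equiv (Equiv.subLeft (2 * d)) (fun i => ?_) (fun i _ => ?_)
    · simp only [Finset.mem_Icc, Equiv.subLeft_apply]
      omega
    · rw [Equiv.subLeft_apply, h.symm, ← ih (m - (2 * d - i))]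
      congr 2
      push_cast
      ring

lemma two_step (h : Hyp b d) (s : ℕ) (m : ℤ) :
    2 * (cc b d (s + 1) m - cc b d (s + 1) (m - 2)) = ∑ i ∈ Icc (0:ℤ) (2 * d + 2),
      (b i - b (i - 2)) * (cc b d s (m - i) - cc b d s (m - (2 * d + 2 - i))) := by
  have hA : cc b d (s + 1) m = ∑ i ∈ Icc (0:ℤ) (2 * d + 2), b i * cc b d s (m - i) := by
    show ∑ i ∈ Icc (0:ℤ) (2 * d), b i * cc b d s (m - i) = _
    refine Finset.sum_subset (fun i hi => ?_) (fun i hi hi' => ?_)
    · rw [Finset.mem_Icc] at hi ⊢; omega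
    · rw [Finset.mem_Icc] at hi hi'
      rw [← h.symm i, h.neg _ (by omega), zero_mul]
  have hB : cc b d (s + 1) (m - 2) = ∑ i ∈ Icc (0:ℤ) (2 * d + 2),
      b (i - 2) * cc b d s (m - i) := by
    have h1 : cc b d (s + 1) (m - 2) = ∑ i ∈ Icc (2:ℤ) (2 * d + 2),
        b (i - 2) * cc b d s (m - i) := by
      show ∑ i ∈ Icc (0:ℤ) (2 * d), b i * cc b d s (m - 2 - i) = _
      refine Finset.sum_equiv (Equiv.addRight 2) (fun i => ?_) (fun i _ => ?_)
      · simp only [Finset.mem_Icc, Equiv.coe_addRight]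
        omega
      · rw [Equiv.coe_addRight]
        congr 2 <;> ring
    rw [h1]
    refine Finset.sum_subset (fun i hi => ?_) (fun i hi hi' => ?_)
    · rw [Finset.mem_Icc] at hi ⊢; omega
    · rw [Finset.mem_Icc] at hi hi'
      rw [h.neg _ (by omega), zero_mul]
  have hE : cc b d (s + 1) m - cc b d (s + 1) (m - 2) = ∑ i ∈ Icc (0:ℤ) (2 * d + 2),
      (b i - b (i - 2)) * cc b d s (m - i) := by
    rw [hA, hB, ← Finset.sum_sub_distrib]
    refine Finset.sum_congr rfl fun i _ => by ring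
  have hC : cc b d (s + 1) m - cc b d (s + 1) (m - 2) = ∑ i ∈ Icc (0:ℤ) (2 * d + 2),
      - ((b i - b (i - 2)) * cc b d s (m - (2 * d + 2 - i))) := by
    rw [hE]
    refine Finset.sum_equiv (Equiv.subLeft (2 * d + 2)) (fun i => ?_) (fun i _ => ?_)
    · simp only [Finset.mem_Icc, Equiv.subLeft_apply]
      omega
    · rw [Equiv.subLeft_apply]
      have e1 : b (2 * d + 2 - i) = b (i - 2) := by
        rw [← h.symm (i - 2)]; congr 1; ring
      have e2 : b (2 * d + 2 - i - 2) = b i := by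
        rw [← h.symm i]; congr 1; ring
      have e3 : m - (2 * d + 2 - (2 * d + 2 - i)) = m - i := by ring
      rw [e1, e2, e3]
      ring
  rw [two_mul]
  conv_lhs => rw [show cc b d (s + 1) m - cc b d (s + 1) (m - 2) +
    (cc b d (s + 1) m - cc b d (s + 1) (m - 2)) = (∑ i ∈ Icc (0:ℤ) (2 * d + 2),
      (b i - b (i - 2)) * cc b d s (m - i)) + ∑ i ∈ Icc (0:ℤ) (2 * d + 2),
      - ((b i - b (i - 2)) * cc b d s (m - (2 * d + 2 - i))) by rw [← hE, ← hC]]
  rw [← Finset.sum_add_distrib]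
  refine Finset.sum_congr rfl fun i _ => by ring

lemma term_nonneg (h : Hyp b d) {s : ℕ}
    (W : ∀ m, m - 1 ≤ d * s → cc b d s (m - 2) ≤ cc b d s m) {m : ℤ} (hm : m - 1 ≤ d * (s + 1))
    (i : ℤ) : 0 ≤ (b i - b (i - 2)) * (cc b d s (m - i) - cc b d s (m - (2 * d + 2 - i))) := by
  have S := cc_symm h s
  have hm' : m - 1 ≤ d * s + d := by linarith
  rcases le_total i (d + 1) with hi | hi
  · have h1 : b (i - 2) ≤ b i := by
      rcases eq_or_lt_of_le hi with rfl | hlt
      · apply le_of_eq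
        rw [← h.symm (d + 1)]; congr 1; ring
      · exact h.mono i (by omega)
    have h2 := compare S W (x := m - i) (y := m - (2 * d + 2 - i)) (by omega)
      ⟨d + 1 - i, by ring⟩ (by linarith)
    exact mul_nonneg (sub_nonneg.mpr h1) (sub_nonneg.mpr h2)
  · have h1 : b i ≤ b (i - 2) := by
      have e1 : b (i - 2) = b (2 * d + 2 - i) := by
        rw [← h.symm (i - 2)]; congr 1; ring
      have e2 : b i = b (2 * d + 2 - i - 2) := by
        rw [← h.symm i]; congr 1; ring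
      rcases eq_or_lt_of_le hi with rfl | hlt
      · apply le_of_eq
        rw [e1]; congr 1; ring
      · rw [e1, e2]
        exact h.mono _ (by omega)
    have h2 := compare S W (x := m - (2 * d + 2 - i)) (y := m - i) (by omega)
      ⟨i - (d + 1), by ring⟩ (by linarith)
    exact mul_nonneg_of_nonpos_of_nonpos (sub_nonpos.mpr h1) (sub_nonpos.mpr h2)

lemma weak (h : Hyp b d) (s : ℕ) : ∀ m, m - 1 ≤ d * s → cc b d s (m - 2) ≤ cc b d s m := by
  induction s with
  | zero =>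
    intro m hm
    push_cast at hm
    rw [cc_neg 0 (m - 2) (by omega)]
    exact cc_nonneg h 0 m
  | succ s ih =>
    intro m hm
    push_cast at hm
    have h1 := two_step h s m
    have h2 : 0 ≤ ∑ i ∈ Icc (0:ℤ) (2 * d + 2),
      (b i - b (i - 2)) * (cc b d s (m - i) - cc b d s (m - (2 * d + 2 - i))) :=
      Finset.sum_nonneg fun i _ => term_nonneg h ih hm i
    linarith

lemma strict_of_term (h : Hyp b d) {s : ℕ} {m : ℤ} (hm : m - 1 ≤ d * (s + 1)) {i : ℤ}
    (hi0 : 0 ≤ i) (hi1 : i ≤ 2 * d + 2)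
    (hi : 0 < (b i - b (i - 2)) * (cc b d s (m - i) - cc b d s (m - (2 * d + 2 - i)))) :
    cc b d (s + 1) (m - 2) < cc b d (s + 1) m := by
  have h1 := two_step h s m
  have h2 : 0 < ∑ i ∈ Icc (0:ℤ) (2 * d + 2),
      (b i - b (i - 2)) * (cc b d s (m - i) - cc b d s (m - (2 * d + 2 - i))) :=
    Finset.sum_pos' (fun i _ => term_nonneg h (weak h s) hm i)
      ⟨i, Finset.mem_Icc.mpr ⟨hi0, hi1⟩, hi⟩
  linarith

lemma cc_one (h : Hyp b d) (m : ℤ) : cc b d 1 m = b m := by
  show ∑ i ∈ Icc (0:ℤ) (2 * d), b i * (Pi.single 0 1 : ℤ → ℚ) (m - i) = b m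
  by_cases hm : m ∈ Icc (0:ℤ) (2 * d)
  · rw [Finset.sum_eq_single m]
    · simp
    · intro i _ hi
      rw [Pi.single_eq_of_ne (by omega), mul_zero]
    · intro h'; exact absurd hm h'
  · rw [Finset.sum_eq_zero]
    · rw [Finset.mem_Icc] at hm
      by_cases h0 : m < 0
      · rw [h.neg m h0]
      · rw [← h.symm m, h.neg _ (by omega)]
    · intro i hi
      have : m - i ≠ 0 := by
        intro h'
        apply hm
        have e : m = i := by omega
        rwa [e]
      rw [Pi.single_eq_of_ne this, mul_zero]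

lemma strict_even (h : Hyp b d) (s : ℕ) : ∀ m, Even m → 0 ≤ m → m ≤ d * ((s + 2 : ℕ) : ℤ) →
    cc b d (s + 2) (m - 2) < cc b d (s + 2) m := by
  have hb2 : b (0 - 2) = 0 := h.neg _ (by norm_num)
  induction s with
  | zero =>
    intro m he h0 hm
    push_cast at hm
    refine strict_of_term h (s := 1) (by push_cast; linarith) (i := 0) le_rfl (by linarith [h.d0]) ?_
    rw [h.one, hb2, sub_zero, one_mul, cc_one h, cc_one h, sub_zero,
      h.neg (m - (2 * d + 2 - 0)) (by linarith), sub_zero]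
    have h1 := compare (cc_symm h 1) (weak h 1) (x := m) (y := 0) h0 (by simpa using he)
      (by push_cast; linarith)
    rw [cc_one h, cc_one h, h.one] at h1
    linarith
  | succ s ih =>
    intro m he h0 hm
    have hd := h.d0
    have hds : 0 ≤ d * (s : ℤ) := mul_nonneg hd (by positivity)
    push_cast at hm
    refine strict_of_term h (s := s + 2) (by push_cast; linarith) (i := 0) le_rfl (by linarith) ?_
    rw [h.one, hb2, sub_zero, one_mul, sub_zero, sub_zero, sub_pos]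
    refine compare_lt (c := d * ((s + 2 : ℕ) : ℤ)) (cc_symm h (s + 2)) (weak h (s + 2))
      (by linarith) ⟨d + 1, by ring⟩ (by push_cast; linarith) (fun hx => ih m he h0 hx)
      (fun hx => ?_)
    refine ih _ ?_ ?_ ?_
    · exact (even_two_mul _).sub he
    · push_cast; nlinarith
    · linarith

/-- The degrees at which the convolution powers increase strictly. -/
def A (b : ℤ → ℚ) (m : ℤ) : Prop :=
  (Even m ∧ 0 ≤ m) ∨ (Odd m ∧ ∃ o, Odd o ∧ o ≤ m ∧ 0 < b o)

lemma exists_least (h : Hyp b d) {o : ℤ} (ho : Odd o) (hb : 0 < b o) :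
    ∃ p, Odd p ∧ p ≤ o ∧ 0 < b p ∧ 0 ≤ p ∧ p ≤ d ∧ b (p - 2) = 0 := by
  classical
  have hpos : ∀ z, Odd z ∧ 0 < b z → 0 ≤ z := by
    intro z hz
    by_contra hc
    rw [h.neg z (by omega)] at hz
    exact lt_irrefl _ hz.2
  obtain ⟨p, hp, hmin⟩ := Int.exists_least_of_bdd (P := fun z => Odd z ∧ 0 < b z)
    ⟨0, hpos⟩ ⟨o, ho, hb⟩
  refine ⟨p, hp.1, hmin o ⟨ho, hb⟩, hp.2, hpos p hp, ?_, ?_⟩
  · have h1 := hmin (2 * d - p) ⟨(even_two_mul d).sub_odd hp.1, by rw [h.symm]; exact hp.2⟩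
    linarith
  · by_contra hc
    have h1 := hmin (p - 2) ⟨hp.1.sub_even even_two, lt_of_le_of_ne (h.nn _) (Ne.symm hc)⟩
    omega

lemma strict (h : Hyp b d) {s : ℕ} (hs : 3 ≤ s) {m : ℤ} (hA : A b m) (hm : m ≤ d * s) :
    cc b d s (m - 2) < cc b d s m := by
  obtain ⟨s, rfl⟩ : ∃ t, s = t + 3 := ⟨s - 3, by omega⟩
  rcases hA with ⟨he, h0⟩ | ⟨hodd, o, ho, hom, hb⟩
  · exact strict_even h (s + 1) m he h0 hm
  · obtain ⟨p, hp, hpo, hbp, hp0, hpd, hp2⟩ := exists_least h ho hb
    have hd := h.d0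
    have hds : 0 ≤ d * (s : ℤ) := mul_nonneg hd (by positivity)
    push_cast at hm
    refine strict_of_term h (s := s + 2) (by push_cast; linarith) (i := p) hp0 (by linarith) ?_
    rw [hp2, sub_zero]
    refine mul_pos hbp (sub_pos.mpr ?_)
    have hev : Even (m - p) := hodd.sub_odd hp
    refine compare_lt (c := d * ((s + 2 : ℕ) : ℤ)) (cc_symm h (s + 2)) (weak h (s + 2))
      (by linarith) ⟨d + 1 - p, by ring⟩ (by push_cast; linarith)
      (fun hx => strict_even h s _ hev (by linarith) hx) (fun hx => ?_)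
    refine strict_even h s _ ?_ ?_ ?_
    · exact (even_two_mul _).sub hev
    · push_cast; nlinarith
    · linarith

/-- Strict comparison. -/
lemma lt_main (h : Hyp b d) {s : ℕ} (hs : 3 ≤ s) {x y : ℤ} (hyx : y < x) (he : Even (x - y))
    (hxy : x + y < 2 * (d * s)) (hA : A b x) (hA' : d * s < x → A b (2 * (d * s) - x)) :
    cc b d s y < cc b d s x := by
  refine compare_lt (cc_symm h s) (weak h s) hyx he hxy (fun hx => strict h hs hA hx)
    (fun hx => strict h hs (hA' hx) (by linarith))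

lemma pos_main (h : Hyp b d) {s : ℕ} (hs : 3 ≤ s) {x : ℤ} (hA : A b x)
    (hA' : d * s < x → A b (2 * (d * s) - x)) : 0 < cc b d s x := by
  by_cases hx : x ≤ d * s
  · exact lt_of_le_of_lt (cc_nonneg h s _) (strict h hs hA hx)
  · rw [← cc_symm h s]
    exact lt_of_le_of_lt (cc_nonneg h s _) (strict h hs (hA' (by linarith)) (by linarith))

end

end Pool.Agent.K3h15.LD.Seq
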