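import Pool.Agent.K3h15.LD.Main
import Pool.Agent.K3h15.LD.Seq

/-!
# Almost every Künneth component of a power decides all components
-/

set_option autoImplicit false
set_option linter.unusedSectionVars false
set_option linter.unusedSimpArgs false

open CategoryTheory Limits MonoidalCategory Filter
open Pool.Agent.Y112.SR Pool.Agent.Y112.KD Pool.Agent.Y112.SC Pool.Agent.K3h63.CC

namespace Pool.Agent.K3h15.LD

universe v u w

section

variable {C : Type u} [Category.{v} C] [Preadditive C] [MonoidalCategory C] [SymmetricCategory C]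
  {K : Type w} [Field K] {R : SuperRealisation C K}

/-- The properties of the Betti numbers of a connected smooth projective variety `X` of dimension
`d`: no negative degrees, `b_0 = 1`, `b_(2 d - i) = b_i` (Poincaré duality), and `b_(i - 2) ≤ b_i`
for `i ≤ d` (hard Lefschetz theorem). -/
structure IsLefschetz (G : Grading R) (X : C) (d : ℕ) : Prop where
  neg : ∀ i : ℤ, i < 0 → G.pr X i = 0
  conn : betti G X 0 = 1
  symm : ∀ i : ℤ, betti G X (2 * d - i) = betti G X i
  mono : ∀ i : ℤ, i ≤ d → betti G X (i - 2) ≤ betti G X i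

/-- A `K`-linear operation `τ` on the endomorphisms of `H X` which maps algebraic ones to algebraic
ones and the projector onto `H^i X` to the projector onto `H^(2 d - i) X`: the transposition, for a
smooth projective variety `X` of dimension `d`. -/
def HasTransposition (G : Grading R) (L : Subfield K) (X : C) (d : ℕ) : Prop :=
  ∃ τ : (R.H.obj X ⟶ R.H.obj X) →ₗ[K] (R.H.obj X ⟶ R.H.obj X),
    (∀ f, Algebraic R L f → Algebraic R L (τ f)) ∧ ∀ i : ℤ, τ (G.pr X i) = G.pr X (2 * d - i)

end

section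

variable {C : Type u} [Category.{v} C] [Preadditive C] [Linear ℚ C] [MonoidalCategory C]
  [MonoidalPreadditive C] [MonoidalLinear ℚ C] [SymmetricCategory C]
  [RightRigidCategory C] {K : Type w} [Field K] [CharZero K] {R : SuperRealisation C K}
  {L : Subfield K} (G : Grading R)

/-- The Betti numbers as rational numbers. -/
noncomputable def bq (X : C) : ℤ → ℚ := fun i => (betti G X i : ℚ)

lemma betti_zero {X : C} {i : ℤ} (h : G.pr X i = 0) : betti G X i = 0 := by
  have h1 := tr_pr G X i
  rw [h, map_zero] at h1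
  exact_mod_cast h1.symm

lemma pr_zero_of_betti {X : C} {i : ℤ} (h : betti G X i = 0) : G.pr X i = 0 := by
  by_contra hc
  exact absurd h (betti_pos G hc).ne'

lemma hyp {X : C} {d : ℕ} (hX : IsLefschetz G X d) : Seq.Hyp (bq G X) d where
  d0 := by positivity
  nn := fun i => by unfold bq; positivity
  neg := fun i hi => by
    unfold bq
    rw [betti_zero G (hX.neg i hi), Nat.cast_zero]
  one := by unfold bq; rw [hX.conn, Nat.cast_one]
  symm := fun i => by unfold bq; rw [hX.symm]
  mono := fun i hi => by unfold bq; exact_mod_cast hX.mono i hi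

lemma top {X : C} {d : ℕ} (hX : IsLefschetz G X d) {i : ℤ} (hi : 2 * (d : ℤ) < i) :
    G.pr X i = 0 := by
  apply pr_zero_of_betti
  rw [← hX.symm]
  exact betti_zero G (hX.neg _ (by omega))

lemma sum_range {M : Type*} [AddCommMonoid M] (d : ℕ) (f : ℤ → M) :
    ∑ i ∈ Finset.range (2 * d + 1), f (i : ℤ) = ∑ i ∈ Finset.Icc (0 : ℤ) (2 * d), f i := by
  refine Finset.sum_nbij' (fun i => (i : ℤ)) Int.toNat ?_ ?_ ?_ ?_ ?_
  · intro i hi
    rw [Finset.mem_range] at hi
    rw [Finset.mem_Icc]
    omega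
  · intro i hi
    rw [Finset.mem_Icc] at hi
    rw [Finset.mem_range]
    omega
  · intro i _
    exact Int.toNat_natCast i
  · intro i hi
    rw [Finset.mem_Icc] at hi
    omega
  · intro i _
    rfl

lemma sum_one {X : C} {d : ℕ} (hX : IsLefschetz G X d) :
    ∑ i ∈ Finset.range (2 * d + 1), G.pr X (i : ℤ) = 𝟙 _ := by
  obtain ⟨D, hD1, hD⟩ := exists_bound G hX.neg (2 * d + 1)
  rw [← hD]
  refine Finset.sum_subset (Finset.range_subset_range.mpr hD1) fun i _ hi => ?_
  rw [Finset.mem_range] at hi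
  exact top G hX (by omega)

lemma iter2 (X : C) (d : ℕ) (j : ℤ) (s : ℕ) : ∀ k : ℤ,
    ((T G X (2 * d + 1))^[s] (Pi.single j 1)) k = sgn (j - k) * Seq.cc (bq G X) d s (j - k) := by
  induction s with
  | zero =>
    intro k
    rw [Function.iterate_zero, id]
    show _ = sgn (j - k) * (Pi.single 0 1 : ℤ → ℚ) (j - k)
    by_cases hk : k = j
    · subst hk
      simp [sgn_even]
    · rw [Pi.single_eq_of_ne hk, Pi.single_eq_of_ne (by omega), mul_zero]
  | succ s ih =>
    intro k
    rw [Function.iterate_succ_apply', T]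
    simp only [ih]
    rw [sum_range d (fun i => (sgn i * (betti G X i : ℚ)) *
      (sgn (j - (k + i)) * Seq.cc (bq G X) d s (j - (k + i))))]
    show _ = sgn (j - k) * ∑ i ∈ Finset.Icc (0 : ℤ) (2 * d), bq G X i *
      Seq.cc (bq G X) d s (j - k - i)
    rw [Finset.mul_sum]
    refine Finset.sum_congr rfl fun i _ => ?_
    have e1 : sgn (j - k) = sgn i * sgn (j - (k + i)) := by
      rw [sgn_mul]; congr 1; ring
    have e2 : j - (k + i) = j - k - i := by ring
    rw [e1, e2, bq]
    ring

/-- The operator with the eigenvalues of the partial trace is algebraic. -/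
lemma eig {X : C} {d : ℕ} (hX : IsLefschetz G X d) {N : ℕ} {j : ℤ}
    (h : Algebraic R L (G.pr (tp X (N + 1)) j)) :
    Algebraic R L (G.th X (fun k => sgn (j - k) * Seq.cc (bq G X) d N (j - k))) := by
  have hth : Algebraic R L (G.th (tp X (N + 1)) (Pi.single j 1)) := by
    rw [G.th_single]; exact h
  have hz := th_one_factor G (chain G (sum_one G hX) N _ hth)
  have e : (T G X (2 * d + 1))^[N] (Pi.single j 1) =
      fun k => sgn (j - k) * Seq.cc (bq G X) d N (j - k) := funext (iter2 G X d j N)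
  rwa [e] at hz

/-- A projector is algebraic if algebraic diagonal operators separate its degree from the others. -/
lemma pr_of_sep {X : C} (i : ℤ)
    (hsep : ∀ j, j ≠ i → G.pr X j ≠ 0 → ∃ z : ℤ → ℚ, Algebraic R L (G.th X z) ∧ z j ≠ z i) :
    Algebraic R L (G.pr X i) := by
  classical
  have key : ∀ S : Finset ℤ, i ∉ S → ∃ y : ℤ → ℚ, Algebraic R L (G.th X y) ∧ y i = 1 ∧
      ∀ j ∈ S, G.pr X j ≠ 0 → y j = 0 := by
    intro S
    induction S using Finset.induction_on with
    | empty =>
      intro _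
      refine ⟨fun _ => 1, ?_, rfl, fun j hj => absurd hj (Finset.notMem_empty j)⟩
      rw [G.th_one]
      exact Algebraic.one X
    | insert j S hj ih =>
      intro hiS
      rw [Finset.mem_insert, not_or] at hiS
      obtain ⟨y, hy, hy1, hy2⟩ := ih hiS.2
      by_cases hjz : G.pr X j = 0
      · refine ⟨y, hy, hy1, fun l hl hl0 => ?_⟩
        rcases Finset.mem_insert.mp hl with rfl | hl'
        · exact absurd hjz hl0
        · exact hy2 l hl' hl0
      obtain ⟨z, hz, hne⟩ := hsep j (fun h => hiS.1 h.symm) hjz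
      refine ⟨y * ((z i - z j)⁻¹ • (z - (z j) • (fun _ => 1))), ?_, ?_, fun l hl hl0 => ?_⟩
      · rw [← G.th_comp, G.th_smul, G.th_sub, G.th_smul, G.th_one]
        exact hy.comp ((hz.sub ((Algebraic.one X).rat _)).rat _)
      · have h3 : z i - z j ≠ 0 := sub_ne_zero.mpr hne.symm
        rw [Pi.mul_apply, hy1, Pi.smul_apply, Pi.sub_apply, Pi.smul_apply, smul_eq_mul,
          smul_eq_mul, mul_one, one_mul, inv_mul_cancel₀ h3]
      · rcases Finset.mem_insert.mp hl with rfl | hl'
        · rw [Pi.mul_apply, Pi.smul_apply, Pi.sub_apply, Pi.smul_apply, smul_eq_mul,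
            smul_eq_mul, mul_one, sub_self, mul_zero, mul_zero]
        · rw [Pi.mul_apply, hy2 l hl' hl0, zero_mul]
  obtain ⟨y, hy, hy1, hy2⟩ := key ((G.supp X).erase i) (Finset.notMem_erase i _)
  have h1 : G.th X y = G.pr X i := by
    rw [← G.th_single]
    apply G.th_congr
    intro j hj
    by_cases hji : j = i
    · subst hji
      rw [hy1, Pi.single_eq_same]
    · rw [Pi.single_eq_of_ne hji]
      refine hy2 j (Finset.mem_erase.mpr ⟨hji, ?_⟩) hj
      by_contra h2
      exact hj (G.pr_zero h2)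
  rw [← h1]
  exact hy

/-- The transposition on diagonal operators. -/
lemma transp {X : C} {d : ℕ} (hX : IsLefschetz G X d) (hτ : HasTransposition G L X d)
    {z : ℤ → ℚ} (hz : Algebraic R L (G.th X z)) :
    Algebraic R L (G.th X (fun i => z (2 * d - i))) := by
  obtain ⟨τ, h1, h2⟩ := hτ
  have hsum : ∑ i ∈ Finset.Icc (0 : ℤ) (2 * d), G.pr X i = 𝟙 _ := by
    rw [← sum_range d (fun i => G.pr X i)]
    exact sum_one G hX
  have e : ∀ y : ℤ → ℚ, G.th X y = ∑ i ∈ Finset.Icc (0 : ℤ) (2 * d), (y i : K) • G.pr X i := by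
    intro y
    calc G.th X y = (∑ i ∈ Finset.Icc (0 : ℤ) (2 * d), G.pr X i) ≫ G.th X y := by
          rw [hsum, Category.id_comp]
      _ = _ := by
          rw [Preadditive.sum_comp]
          exact Finset.sum_congr rfl fun i _ => G.pr_th X y i
  have h3 : τ (G.th X z) = G.th X (fun i => z (2 * d - i)) := by
    rw [e z, e, map_sum]
    refine Finset.sum_equiv (Equiv.subLeft (2 * (d : ℤ))) (fun i => ?_) (fun i _ => ?_)
    · simp only [Finset.mem_Icc, Equiv.subLeft_apply]
      omega
    · rw [map_smul, h2, Equiv.subLeft_apply]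
      congr 3
      ring
  rw [← h3]
  exact h1 _ hz

lemma sgn_ne_zero (a : ℤ) : sgn a = 1 ∨ sgn a = -1 := by
  rcases Int.even_or_odd a with h' | h'
  · left; exact sgn_even h'
  · right; exact sgn_odd h'

lemma sgn_same {a b : ℤ} (h : Even (a - b)) : sgn a = sgn b := by
  rcases Int.even_or_odd b with hb | hb
  · rw [sgn_even hb, sgn_even]
    have := h.add hb
    rwa [sub_add_cancel] at this
  · rw [sgn_odd hb, sgn_odd]
    have := h.add_odd hb
    rwa [sub_add_cancel] at this

lemma sgn_diff {a b : ℤ} (h : Odd (a - b)) : sgn a = - sgn b := by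
  rcases Int.even_or_odd b with hb | hb
  · rw [sgn_even hb, sgn_odd]
    have := h.add_even hb
    rwa [sub_add_cancel] at this
  · rw [sgn_odd hb, sgn_even, neg_neg]
    have := h.add_odd hb
    rwa [sub_add_cancel] at this

/-- Eigenvalues of different parity. -/
lemma ne_odd {b : ℤ → ℚ} {d : ℤ} (h : Seq.Hyp b d) {s : ℕ} {x y : ℤ} (ho : Odd (y - x))
    (hx : 0 < Seq.cc b d s x) : sgn y * Seq.cc b d s y ≠ sgn x * Seq.cc b d s x := by
  have h1 := Seq.cc_nonneg h s y
  rw [sgn_diff ho]
  intro h2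
  rcases sgn_ne_zero x with h3 | h3 <;> rw [h3] at h2 <;> linarith

lemma ne_even {b : ℤ → ℚ} {d : ℤ} {s : ℕ} {x y : ℤ} (he : Even (y - x))
    (hx : Seq.cc b d s y ≠ Seq.cc b d s x) :
    sgn y * Seq.cc b d s y ≠ sgn x * Seq.cc b d s x := by
  rw [sgn_same he]
  intro h2
  apply hx
  rcases sgn_ne_zero x with h3 | h3 <;> rw [h3] at h2 <;> linarith

lemma A_mono {b : ℤ → ℚ} {x y : ℤ} (h : Seq.A b x) (hxy : x ≤ y) (he : Even (y - x)) :
    Seq.A b y := by
  have e : y = x + (y - x) := by ring
  rcases h with ⟨h1, h2⟩ | ⟨h1, o, h2, h3, h4⟩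
  · left
    refine ⟨?_, by omega⟩
    rw [e]; exact h1.add he
  · right
    refine ⟨?_, o, h2, by omega, h4⟩
    rw [e]; exact h1.add_even he

lemma bq_pos {X : C} {o : ℤ} (h : G.pr X o ≠ 0) : 0 < bq G X o := by
  unfold bq
  exact_mod_cast betti_pos G h

lemma A_of {X : C} {m : ℤ} (h0 : 0 ≤ m)
    (h : Even m ∨ ∃ o : ℤ, Odd o ∧ o ≤ m ∧ G.pr X o ≠ 0) : Seq.A (bq G X) m := by
  by_cases he : Even m
  · exact Or.inl ⟨he, h0⟩
  · rcases h with h | ⟨o, h1, h2, h3⟩
    · exact absurd h he
    · exact Or.inr ⟨Int.not_even_iff_odd.mp he, o, h1, h2, bq_pos G h3⟩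

/-- Components below the middle. -/
theorem below {X : C} {d : ℕ} (hX : IsLefschetz G X d) {j n : ℕ} (hn : 4 ≤ n)
    (hj : j + d ≤ n * d) (h : Algebraic R L (G.pr (tp X n) j)) (i : ℤ) (hi : i ≤ j)
    (hpar : Even ((j : ℤ) - i) ∨ ∃ o : ℤ, Odd o ∧ o ≤ j - i ∧ G.pr X o ≠ 0) :
    Algebraic R L (G.pr X i) := by
  obtain ⟨N, rfl⟩ : ∃ N, n = N + 1 := ⟨n - 1, by omega⟩
  have hN : 3 ≤ N := by omega
  have hj' : (j : ℤ) ≤ d * N := by
    have : j ≤ d * N := by nlinarith
    exact_mod_cast this
  have H := hyp G hX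
  by_cases hi0 : i < 0
  · rw [hX.neg i hi0]
    exact Algebraic.zero X X
  have hA : Seq.A (bq G X) ((j : ℤ) - i) := A_of G (by omega) hpar
  refine pr_of_th G (eig G hX h) i fun i' hne hi' => ?_
  have hi'0 : 0 ≤ i' := by
    by_contra hc
    exact hi' (hX.neg i' (by omega))
  rcases Int.even_or_odd (((j : ℤ) - i') - (j - i)) with he | ho
  · apply ne_even he
    rcases lt_or_gt_of_ne hne with hlt | hgt
    · have h1 := Seq.lt_main H hN (x := (j : ℤ) - i') (y := j - i) (by omega) he (by linarith)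
        (A_mono hA (by omega) he) (fun h => by linarith)
      exact h1.ne'
    · have h1 := Seq.lt_main H hN (x := (j : ℤ) - i) (y := j - i') (by omega)
        (by rw [← neg_sub]; exact he.neg) (by linarith) hA (fun h => by linarith)
      exact h1.ne
  · exact ne_odd H ho (Seq.pos_main H hN hA (fun h => by linarith))

/-- All eigenvalues but two are separated. -/
lemma separates {X : C} {d : ℕ} (hX : IsLefschetz G X d) {j N : ℕ} (hN : 3 ≤ N)
    (hev : Even j ∨ ∃ o : ℤ, Odd o ∧ G.pr X o ≠ 0 ∧ 2 * d + o ≤ j ∧ j + o ≤ 2 * (d * N))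
    (h1 : 2 * d ≤ j) (h2 : j ≤ 2 * (d * N)) {i i' : ℤ} (hi : G.pr X i ≠ 0)
    (hi' : G.pr X i' ≠ 0) (hne : i' ≠ i) (hs : i + i' ≠ 2 * (j - d * N)) :
    sgn ((j : ℤ) - i') * Seq.cc (bq G X) d N (j - i') ≠
      sgn ((j : ℤ) - i) * Seq.cc (bq G X) d N (j - i) := by
  have H := hyp G hX
  have h2' : (j : ℤ) ≤ 2 * (d * N) := by exact_mod_cast h2
  have hrange : ∀ k : ℤ, G.pr X k ≠ 0 → 0 ≤ k ∧ k ≤ 2 * d := by
    intro k hk
    constructor
    · by_contra hc
      exact hk (hX.neg k (by omega))
    · by_contra hc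
      exact hk (top G hX (by omega))
  have hdual : ∀ k : ℤ, G.pr X k ≠ 0 → G.pr X (2 * d - k) ≠ 0 := by
    intro k hk hc
    have h3 := betti_zero G hc
    rw [hX.symm] at h3
    exact hk (pr_zero_of_betti G h3)
  have hA : ∀ k : ℤ, G.pr X k ≠ 0 → Seq.A (bq G X) (j - k) ∧
      Seq.A (bq G X) (2 * (d * N) - (j - k)) := by
    intro k hk
    have hk1 := hrange k hk
    constructor
    · refine A_of G (by omega) ?_
      rcases Int.even_or_odd ((j : ℤ) - k) with he | ho
      · exact Or.inl he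
      · right
        rcases hev with hev | ⟨o, o1, o2, o3, o4⟩
        · have hev' : Even (j : ℤ) := by exact_mod_cast hev
          refine ⟨2 * d - k, ?_, by omega, hdual k hk⟩
          have : (2 * (d : ℤ) - k) = (j - k) - (j - 2 * d) := by ring
          rw [this]
          exact ho.sub_even (hev'.sub (even_two_mul _))
        · exact ⟨o, o1, by omega, o2⟩
    · refine A_of G (by linarith) ?_
      rcases Int.even_or_odd (2 * (d * N : ℤ) - ((j : ℤ) - k)) with he | ho
      · exact Or.inl he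
      · right
        rcases hev with hev | ⟨o, o1, o2, o3, o4⟩
        · have hev' : Even (j : ℤ) := by exact_mod_cast hev
          refine ⟨k, ?_, by linarith, hk⟩
          have : k = (2 * (d * N : ℤ) - ((j : ℤ) - k)) - (2 * (d * N : ℤ) - j) := by ring
          rw [this]
          exact ho.sub_even ((even_two_mul _).sub hev')
        · exact ⟨o, o1, by linarith, o2⟩
  have hlt : ∀ x y : ℤ, y < x → Even (x - y) → x + y ≠ 2 * (d * N) →
      Seq.A (bq G X) x → Seq.A (bq G X) y → Seq.A (bq G X) (2 * (d * N) - x) →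
      Seq.A (bq G X) (2 * (d * N) - y) →
      Seq.cc (bq G X) d N x ≠ Seq.cc (bq G X) d N y := by
    intro x y hxy he hsum a1 a2 a3 a4
    rcases lt_or_gt_of_ne hsum with h3 | h3
    · exact (Seq.lt_main H hN hxy he h3 a1 (fun _ => a3)).ne'
    · have e : Even (2 * ((d : ℤ) * N) - y - (2 * (d * N) - x)) := by
        have : 2 * ((d : ℤ) * N) - y - (2 * (d * N) - x) = x - y := by ring
        rwa [this]
      have h4 := Seq.lt_main H hN (x := 2 * ((d : ℤ) * N) - y) (y := 2 * (d * N) - x)
        (by linarith) e (by linarith) a4 (fun _ => by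
          have : 2 * ((d : ℤ) * N) - (2 * (d * N) - y) = y := by ring
          rwa [this])
      rw [Seq.cc_symm H, Seq.cc_symm H] at h4
      exact h4.ne
  obtain ⟨a1, a2⟩ := hA i hi
  obtain ⟨a3, a4⟩ := hA i' hi'
  have hsum : ((j : ℤ) - i') + (j - i) ≠ 2 * (d * N) := by
    intro h3
    apply hs
    linarith
  rcases Int.even_or_odd (((j : ℤ) - i') - (j - i)) with he | ho
  · apply ne_even he
    rcases lt_or_gt_of_ne hne with hl | hg
    · exact hlt _ _ (by omega) he hsum a3 a1 a4 a2
    · exact (hlt _ _ (by omega) (by rw [← neg_sub]; exact he.neg)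
        (by rw [add_comm]; exact hsum) a1 a3 a2 a4).symm
  · exact ne_odd H ho (Seq.pos_main H hN a1 (fun _ => a2))

/-- One component of even degree decides. -/
theorem one {X : C} {d : ℕ} (hX : IsLefschetz G X d) (hτ : HasTransposition G L X d) {j n : ℕ}
    (hn : 4 ≤ n) (h1 : 2 * d ≤ j) (h2 : j + 2 * d ≤ 2 * (n * d)) (h3 : j ≠ n * d)
    (hev : Even j ∨ ∃ o : ℤ, Odd o ∧ G.pr X o ≠ 0 ∧ 2 * d + o ≤ j ∧ j + 2 * d + o ≤ 2 * (n * d)) :
    G.KunnethC L X ↔ Algebraic R L (G.pr (tp X n) j) := by
  constructor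
  · intro h
    exact C_tp G h n _
  · intro h
    obtain ⟨N, rfl⟩ : ∃ N, n = N + 1 := ⟨n - 1, by omega⟩
    have hN : 3 ≤ N := by omega
    have h2' : j ≤ 2 * (d * N) := by nlinarith
    have h3' : (j : ℤ) ≠ d * N + d := by
      intro hc
      apply h3
      have : j = d * N + d := by exact_mod_cast hc
      rw [this]; ring
    have hev' : Even j ∨ ∃ o : ℤ, Odd o ∧ G.pr X o ≠ 0 ∧ 2 * d + o ≤ j ∧ j + o ≤ 2 * (d * N) := by
      rcases hev with hev | ⟨o, o1, o2, o3, o4⟩
      · exact Or.inl hev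
      · refine Or.inr ⟨o, o1, o2, o3, ?_⟩
        push_cast at o4
        linarith
    have hrange : ∀ k : ℤ, G.pr X k ≠ 0 → G.pr X (2 * d - k) ≠ 0 := by
      intro k hk hc
      have h3 := betti_zero G hc
      rw [hX.symm] at h3
      exact hk (pr_zero_of_betti G h3)
    intro i
    by_cases hi : G.pr X i = 0
    · rw [hi]
      exact Algebraic.zero X X
    refine pr_of_sep G i fun i' hne hi' => ?_
    by_cases hs : i + i' = 2 * (j - d * N)
    · refine ⟨_, transp G hX hτ (eig G hX h), ?_⟩
      refine separates G hX hN hev' h1 h2' (hrange i hi) (hrange i' hi') ?_ ?_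
      · intro hc
        apply hne
        linarith
      · intro hc
        apply h3'
        linarith
    · exact ⟨_, eig G hX h, separates G hX hN hev' h1 h2' hi hi' hne hs⟩

/-- The components of degree `≤ j` and the transposed ones. -/
theorem half {X : C} {d : ℕ} (hX : IsLefschetz G X d) (hτ : HasTransposition G L X d) {j : ℕ}
    (hj : d ≤ j + 1) (h : ∀ i : ℤ, i ≤ j → Algebraic R L (G.pr X i)) : G.KunnethC L X := by
  have h' : ∀ i : ℤ, 2 * (d : ℤ) - j ≤ i → Algebraic R L (G.pr X i) := by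
    intro i hi
    have h1 := h (2 * d - i) (by omega)
    rw [← G.th_single] at h1
    have h2 := transp G hX hτ h1
    have e : (fun k => (Pi.single (2 * (d : ℤ) - i) 1 : ℤ → ℚ) (2 * d - k)) = Pi.single i 1 := by
      funext k
      by_cases hk : k = i
      · subst hk; simp
      · rw [Pi.single_eq_of_ne hk, Pi.single_eq_of_ne (by omega)]
    rw [e, G.th_single] at h2
    exact h2
  intro i
  by_cases hi : i ≤ j
  · exact h i hi
  by_cases hi2 : 2 * (d : ℤ) - j ≤ i
  · exact h' i hi2
  refine pr_of_sep G i fun i' hne _ => ?_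
  refine ⟨Pi.single i' 1, ?_, ?_⟩
  · rw [G.th_single]
    by_cases hi3 : i' ≤ j
    · exact h i' hi3
    · exact h' i' (by omega)
  · rw [Pi.single_eq_same, Pi.single_eq_of_ne hne.symm]
    exact one_ne_zero

/-- The degrees `i` whose projectors occur in the `j`-th projector of the powers of `X`. -/
def Occurs (G : Grading R) (X : C) (j i : ℤ) : Prop :=
  i ≤ j ∧ (Even (j - i) ∨ ∃ o : ℤ, Odd o ∧ o ≤ j - i ∧ G.pr X o ≠ 0)

lemma deg_tp {X : C} {d : ℕ} (hX : IsLefschetz G X d) (n : ℕ) :
    ∀ a : ℤ, G.pr (tp X n) a ≠ 0 → 0 ≤ a ∧ (Even a ∨ ∃ o : ℤ, Odd o ∧ o ≤ a ∧ G.pr X o ≠ 0) := by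
  induction n with
  | zero =>
    intro a ha
    have h1 : a = 0 := by
      by_contra hk
      apply ha
      have h2 := G.orth (𝟙_ C) 0 a (Ne.symm hk)
      rw [G.unit, Category.id_comp] at h2
      exact h2
    subst h1
    exact ⟨le_rfl, Or.inl (by simp)⟩
  | succ n ih =>
    intro k hk
    by_contra hc
    apply hk
    rw [← G.th_single]
    show G.th (tp X n ⊗ X) _ = 0
    rw [th_tensor G (sum_one G hX)]
    refine Finset.sum_eq_zero fun a _ => Finset.sum_eq_zero fun i _ => ?_
    by_cases hai : a + (i : ℤ) = k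
    · by_cases ha : G.pr (tp X n) a = 0
      · rw [ha, bx_zero_left, smul_zero]
      by_cases hi : G.pr X (i : ℤ) = 0
      · rw [hi, bx_zero_right, smul_zero]
      exfalso
      obtain ⟨h1, h2⟩ := ih a ha
      apply hc
      refine ⟨by omega, ?_⟩
      rcases h2 with h2 | ⟨o, o1, o2, o3⟩
      · rcases Int.even_or_odd (i : ℤ) with he | ho
        · left; rw [← hai]; exact h2.add he
        · exact Or.inr ⟨i, ho, by omega, hi⟩
      · exact Or.inr ⟨o, o1, by omega, o3⟩
    · rw [Pi.single_eq_of_ne hai, Rat.cast_zero, zero_smul]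

/-- The converse. -/
theorem occurs_tp {X : C} {d : ℕ} (hX : IsLefschetz G X d) (n : ℕ) : ∀ j : ℤ,
    (∀ i : ℤ, Occurs G X j i → Algebraic R L (G.pr X i)) → Algebraic R L (G.pr (tp X n) j) := by
  induction n with
  | zero =>
    intro k _
    by_cases hk : k = 0
    · subst hk
      have h2 : G.pr (tp X 0) 0 = 𝟙 _ := G.unit
      rw [h2]
      exact Algebraic.one _
    · have h2 := G.orth (𝟙_ C) 0 k (Ne.symm hk)
      rw [G.unit, Category.id_comp] at h2
      have h3 : G.pr (tp X 0) k = 0 := h2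
      rw [h3]
      exact Algebraic.zero _ _
  | succ n ih =>
    intro k h
    rw [← G.th_single]
    show Algebraic R L (G.th (tp X n ⊗ X) _)
    rw [th_tensor G (sum_one G hX)]
    refine Algebraic.sum _ fun a _ => Algebraic.sum _ fun i _ => ?_
    by_cases hai : a + (i : ℤ) = k
    · by_cases ha : G.pr (tp X n) a = 0
      · rw [ha, bx_zero_left, smul_zero]
        exact Algebraic.zero _ _
      by_cases hi : G.pr X (i : ℤ) = 0
      · rw [hi, bx_zero_right, smul_zero]
        exact Algebraic.zero _ _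
      obtain ⟨h1, h2⟩ := deg_tp G hX n a ha
      refine (Algebraic.bx (ih a ?_) (h i ?_)).rat _
      · rintro i' ⟨h3, h4⟩
        refine h i' ⟨by omega, ?_⟩
        rcases Int.even_or_odd (k - i') with he | ho
        · exact Or.inl he
        · right
          rcases h4 with h4 | ⟨o, o1, o2, o3⟩
          · refine ⟨i, ?_, by omega, hi⟩
            have : (i : ℤ) = (k - i') - (a - i') := by omega
            rw [this]
            exact ho.sub_even h4
          · exact ⟨o, o1, by omega, o3⟩
      · refine ⟨by omega, ?_⟩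
        have : k - (i : ℤ) = a := by omega
        rw [this]
        exact h2
    · rw [Pi.single_eq_of_ne hai, Rat.cast_zero, zero_smul]
      exact Algebraic.zero _ _

theorem below_iff {X : C} {d : ℕ} (hX : IsLefschetz G X d) {j n : ℕ} (hn : 4 ≤ n)
    (hj : j + d ≤ n * d) :
    Algebraic R L (G.pr (tp X n) j) ↔ ∀ i : ℤ, Occurs G X j i → Algebraic R L (G.pr X i) :=
  ⟨fun h i hi => below G hX hn hj h i hi.1 hi.2, fun h => occurs_tp G hX n j h⟩

theorem below_full {X : C} {d : ℕ} (hX : IsLefschetz G X d) (hτ : HasTransposition G L X d)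
    {j n : ℕ} (hn : 4 ≤ n) (hj : j + d ≤ n * d)
    (hc : ∀ i : ℤ, i ≤ j → G.pr X i ≠ 0 → Occurs G X j i) (hd : d ≤ j + 1) :
    G.KunnethC L X ↔ Algebraic R L (G.pr (tp X n) j) := by
  rw [below_iff G hX hn hj]
  refine ⟨fun h i _ => h i, fun h => half G hX hτ hd fun i hi => ?_⟩
  by_cases hz : G.pr X i = 0
  · rw [hz]
    exact Algebraic.zero X X
  · exact h i (hc i hi hz)

/-- Indicator functions of the fibres. -/
lemma ind_of_th {X : C} {z : ℤ → ℚ} (hz : Algebraic R L (G.th X z)) (i : ℤ) {y' : ℤ → ℚ}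
    (h1 : ∀ l, G.pr X l ≠ 0 → z l = z i → y' l = 1) (h0 : ∀ l, G.pr X l ≠ 0 → z l ≠ z i → y' l = 0) :
    Algebraic R L (G.th X y') := by
  classical
  have key : ∀ S : Finset ℤ, ∃ y : ℤ → ℚ, Algebraic R L (G.th X y) ∧
      (∀ l, z l = z i → y l = 1) ∧ ∀ j ∈ S, z j ≠ z i → y j = 0 := by
    intro S
    induction S using Finset.induction_on with
    | empty =>
      refine ⟨fun _ => 1, ?_, fun _ _ => rfl, fun j hj => absurd hj (Finset.notMem_empty j)⟩
      rw [G.th_one]
      exact Algebraic.one X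
    | insert j S hj ih =>
      obtain ⟨y, hy, hy1, hy2⟩ := ih
      by_cases hne : z j = z i
      · refine ⟨y, hy, hy1, fun l hl hl0 => ?_⟩
        rcases Finset.mem_insert.mp hl with rfl | hl'
        · exact absurd hne hl0
        · exact hy2 l hl' hl0
      have h3 : z i - z j ≠ 0 := sub_ne_zero.mpr (Ne.symm hne)
      refine ⟨y * ((z i - z j)⁻¹ • (z - (z j) • (fun _ => 1))), ?_, fun l hl => ?_,
        fun l hl hl0 => ?_⟩
      · rw [← G.th_comp, G.th_smul, G.th_sub, G.th_smul, G.th_one]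
        exact hy.comp ((hz.sub ((Algebraic.one X).rat _)).rat _)
      · rw [Pi.mul_apply, hy1 l hl, Pi.smul_apply, Pi.sub_apply, Pi.smul_apply, smul_eq_mul,
          smul_eq_mul, mul_one, one_mul, hl, inv_mul_cancel₀ h3]
      · rcases Finset.mem_insert.mp hl with rfl | hl'
        · rw [Pi.mul_apply, Pi.smul_apply, Pi.sub_apply, Pi.smul_apply, smul_eq_mul,
            smul_eq_mul, mul_one, sub_self, mul_zero, mul_zero]
        · rw [Pi.mul_apply, hy2 l hl' hl0, zero_mul]
  obtain ⟨y, hy, hy1, hy2⟩ := key (G.supp X)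
  have h3 : G.th X y = G.th X y' := by
    apply G.th_congr
    intro l hl
    by_cases hli : z l = z i
    · rw [hy1 l hli, h1 l hl hli]
    · rw [h0 l hl hli]
      refine hy2 l ?_ hli
      by_contra h4
      exact hl (G.pr_zero h4)
  rw [← h3]
  exact hy

/-- The middle component. -/
theorem middle {X : C} {d : ℕ} (hX : IsLefschetz G X d) {n : ℕ} (hn : 4 ≤ n)
    (hev : Even (n * d) ∨ ∃ o : ℤ, Odd o ∧ G.pr X o ≠ 0)
    (h : Algebraic R L (G.pr (tp X n) ((n * d : ℕ) : ℤ))) (i : ℤ) :
    Algebraic R L (G.pr X i + G.pr X (2 * d - i)) := by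
  obtain ⟨N, rfl⟩ : ∃ N, n = N + 1 := ⟨n - 1, by omega⟩
  have hN : 3 ≤ N := by omega
  have H := hyp G hX
  have hrange : ∀ k : ℤ, G.pr X k ≠ 0 → G.pr X (2 * d - k) ≠ 0 := by
    intro k hk hc
    have h3 := betti_zero G hc
    rw [hX.symm] at h3
    exact hk (pr_zero_of_betti G h3)
  by_cases hi : G.pr X i = 0
  · have h2 : G.pr X (2 * d - i) = 0 := by
      by_contra hc
      have := hrange _ hc
      rw [sub_sub_cancel] at this
      exact this hi
    rw [hi, h2, add_zero]
    exact Algebraic.zero X X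
  have hev' : Even ((N + 1) * d) ∨ ∃ o : ℤ, Odd o ∧ G.pr X o ≠ 0 ∧
      2 * d + o ≤ ((N + 1) * d : ℕ) ∧ ((N + 1) * d : ℕ) + o ≤ 2 * ((d : ℤ) * N) := by
    rcases hev with hev | ⟨o, o1, o2⟩
    · exact Or.inl hev
    · right
      have o3 : 0 < bq G X o := bq_pos G o2
      obtain ⟨p, p1, _, p3, p4, p5, _⟩ := Seq.exists_least H o1 o3
      have hdN : 3 * (d : ℤ) ≤ d * N := by
        have : (3 : ℤ) ≤ N := by exact_mod_cast hN
        nlinarith
      refine ⟨p, p1, ?_, ?_, ?_⟩
      · intro hc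
        have := betti_zero G hc
        unfold bq at p3
        rw [this, Nat.cast_zero] at p3
        exact lt_irrefl _ p3
      · push_cast; nlinarith
      · push_cast; nlinarith
  have a1 : 2 * d ≤ (N + 1) * d := by nlinarith
  have a2 : (N + 1) * d ≤ 2 * (d * N) := by nlinarith
  have hz := eig G hX h
  have hsymz : ∀ k : ℤ, sgn ((((N + 1) * d : ℕ) : ℤ) - (2 * d - k)) *
      Seq.cc (bq G X) d N ((((N + 1) * d : ℕ) : ℤ) - (2 * d - k)) =
      sgn ((((N + 1) * d : ℕ) : ℤ) - k) * Seq.cc (bq G X) d N ((((N + 1) * d : ℕ) : ℤ) - k) := by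
    intro k
    have e1 : (((N + 1) * d : ℕ) : ℤ) - (2 * d - k) =
        2 * (d * N) - ((((N + 1) * d : ℕ) : ℤ) - k) := by
      push_cast; ring
    rw [e1, Seq.cc_symm H]
    congr 1
    apply sgn_same
    exact ⟨(d : ℤ) * N - ((((N + 1) * d : ℕ) : ℤ) - k), by ring⟩
  by_cases hid : 2 * (d : ℤ) - i = i
  · rw [hid]
    have h5 : Algebraic R L (G.pr X i) := by
      refine pr_of_sep G i fun i' hne hi' => ⟨_, hz, ?_⟩
      refine separates G hX hN hev' a1 a2 hi hi' hne ?_
      intro hc
      apply hne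
      push_cast at hc
      linarith
    exact h5.add h5
  have h6 : Algebraic R L (G.th X (Pi.single i 1 + Pi.single (2 * (d : ℤ) - i) 1)) := by
    refine ind_of_th G hz i ?_ ?_
    · intro l hl hle
      by_cases hli : l = i
      · subst hli
        rw [Pi.add_apply, Pi.single_eq_same, Pi.single_eq_of_ne (Ne.symm hid), add_zero]
      · by_cases hl2 : l = 2 * d - i
        · rw [Pi.add_apply, hl2, Pi.single_eq_same, Pi.single_eq_of_ne hid, zero_add]
        · exfalso
          refine separates G hX hN hev' a1 a2 hi hl hli ?_ hle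
          intro hc
          apply hl2
          push_cast at hc
          linarith
    · intro l hl hle
      have hli : l ≠ i := by
        rintro rfl
        exact hle rfl
      have hl2 : l ≠ 2 * d - i := by
        rintro rfl
        exact hle (hsymz i)
      rw [Pi.add_apply, Pi.single_eq_of_ne hli, Pi.single_eq_of_ne hl2, add_zero]
  rw [G.th_add, G.th_single, G.th_single] at h6
  exact h6

end

section

variable {C : Type u} [Category.{v} C] [Preadditive C] [MonoidalCategory C] [SymmetricCategory C]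
  {K : Type w} [Field K] {R : SuperRealisation C K}

/-- A class `𝒱` of objects with a dimension `d` like the connected smooth projective varieties:
the two conditions above, and the powers `X ^ n`, `n ≥ 1`, belong to `𝒱` and have dimension
`n d`. -/
structure IsLefschetzClass (G : Grading R) (L : Subfield K) (𝒱 : Set C) (d : C → ℕ) : Prop where
  lef : ∀ X ∈ 𝒱, IsLefschetz G X (d X)
  tra : ∀ X ∈ 𝒱, HasTransposition G L X (d X)
  pow : ∀ X ∈ 𝒱, ∀ n : ℕ, 1 ≤ n → tp X n ∈ 𝒱 ∧ d (tp X n) = n * d X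

end

section

variable {C : Type u} [Category.{v} C] [Preadditive C] [Linear ℚ C] [MonoidalCategory C]
  [MonoidalPreadditive C] [MonoidalLinear ℚ C] [SymmetricCategory C]
  [RightRigidCategory C] {K : Type w} [Field K] [CharZero K] {R : SuperRealisation C K}
  {L : Subfield K} (G : Grading R)

/-- One projector for each variety of a class. -/
theorem class_one {𝒱 : Set C} {d : C → ℕ} (hV : IsLefschetzClass G L 𝒱 d) {g : ℕ → ℕ}
    (hg : ∀ᶠ m in atTop, Even (g m) ∧ g m ≠ m) (hg1 : Tendsto g atTop atTop)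
    (hg2 : Tendsto (fun m => 2 * m - g m) atTop atTop) :
    (∀ Z ∈ 𝒱, Algebraic R L (G.pr Z (g (d Z)))) ↔ ∀ Z ∈ 𝒱, G.KunnethC L Z := by
  constructor
  · intro h X hX
    have hL := hV.lef X hX
    rcases Nat.eq_zero_or_pos (d X) with h0 | h0
    · refine half G hL (hV.tra X hX) (j := 0) (by omega) fun i hi => ?_
      rcases eq_or_lt_of_le hi with rfl | hlt
      · have h1 := sum_one G hL
        rw [h0] at h1
        have h2 : G.pr X ((0 : ℕ) : ℤ) = 𝟙 _ := by
          rw [← h1]; simp
        rw [h2]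
        exact Algebraic.one X
      · rw [hL.neg i hlt]
        exact Algebraic.zero X X
    · have e1 := tendsto_atTop.mp hg1 (2 * d X)
      have e2 := tendsto_atTop.mp hg2 (2 * d X)
      obtain ⟨M, hM⟩ := (hg.and (e1.and e2)).exists_forall_of_atTop
      set n := max 4 M with hn
      have n4 : 4 ≤ n := le_max_left _ _
      have nM : M ≤ n * d X := (le_max_right _ _).trans (Nat.le_mul_of_pos_right _ h0)
      obtain ⟨⟨m1, m2⟩, m3, m4⟩ := hM _ nM
      have hp := hV.pow X hX n (by omega)
      have h3 := h _ hp.1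
      rw [hp.2] at h3
      refine (one G hL (hV.tra X hX) n4 m3 ?_ m2 (Or.inl m1)).mpr h3
      omega
  · intro h Z hZ
    exact h Z hZ _

end

end Pool.Agent.K3h15.LD
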